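import Mathlib
import Pool.Agent.helper54.Schub.Exist
import Pool.Agent.helper54.Schub.Swap
import Pool.Agent.helper54.Schub.Uniq

/-!
# Upper bound: definitions

A weight `F` of `k` consecutive letters and a weight `G` of `2 k - 1` consecutive letters; sequences
are functions `ℕ → ℕ`, a permutation `w` is turned into the sequence `ext k w` with `k - 1` new small
letters in front.
-/

set_option autoImplicit false
open Finset Equiv Pool.Agent.helper54.Schub

namespace Pool.Agent.helper54.Upb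

/-- the sequence `0, 1, …, k - 2, w 0 + (k - 1), w 1 + (k - 1), …` -/
def ext (k : ℕ) (w : Perm ℕ) (i : ℕ) : ℕ := if i < k - 1 then i else w (i - (k - 1)) + (k - 1)

/-- the sequence without its first `r` letters -/
def sh (r : ℕ) (y : ℕ → ℕ) : ℕ → ℕ := fun i => y (i + r)

/-- the sequence with the letters `k - 1` and `k` exchanged -/
def sw (k : ℕ) (y : ℕ → ℕ) : ℕ → ℕ := fun i => y (swap (k - 1) k i)

/-- local weights with growth factor `L` -/
structure LocW (k : ℕ) (F G : (ℕ → ℕ) → ℚ) (A L : ℚ) : Prop where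
  hk : 2 ≤ k
  hL : 1 ≤ L
  locF : ∀ y z : ℕ → ℕ, (∀ i, i < k → y i = z i) → F y = F z
  locG : ∀ y z : ℕ → ℕ, (∀ i, i < 2 * k - 1 → y i = z i) → G y = G z
  F1 : ∀ y, 1 ≤ F y
  FA : ∀ y, F y ≤ A
  G1 : ∀ y, 1 ≤ G y
  GA : ∀ y, G y ≤ A
  ineq : ∀ y : ℕ → ℕ, Function.Injective y →
    G y * F (sh k y) + (if y (k - 1) < y k then G (sw k y) * F (sh k (sw k y)) else 0) ≤
      L * (F y * G (sh 1 y))

/-- weight of a permutation, between two rows -/
def Ph (k : ℕ) (F : (ℕ → ℕ) → ℚ) (M : ℕ) (w : Perm ℕ) : ℚ :=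
  ∏ i ∈ range M, F (sh i (ext k w))

/-- weight of a permutation, inside a row, with the kink at the position `a` -/
def Pk (k : ℕ) (F G : (ℕ → ℕ) → ℚ) (M a : ℕ) (w : Perm ℕ) : ℚ :=
  (∏ i ∈ range a, F (sh i (ext k w))) * G (sh a (ext k w)) *
    ∏ i ∈ Ico (a + k) M, F (sh i (ext k w))

/-- weighted sum of the coefficients over the permutations of `n` letters -/
noncomputable def Zs (n : ℕ) (φ : Perm ℕ → ℚ) (G : Module.End ℚ (Perm ℕ → ℚ)) : ℚ :=
  ∑ v : Perm (Fin n), φ (iot v) * cf (iot v) G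

end Pool.Agent.helper54.Upb
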