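import Pool.Agent.helper54.Upb.All5
import Pool.Agent.helper54.Upb.UDefs

/-!
# The large certificate gives local weights
-/

set_option autoImplicit false

namespace Pool.Agent.helper54.Upb.Five

/-- comparison of two letters of a sequence -/
def lt (y : ℕ → ℕ) (i j : ℕ) : Bool := decide (y i < y j)

/-- weight of the first five letters -/
def Fq (y : ℕ → ℕ) : ℚ :=
  ((Fw (lt y 0 1) (lt y 1 2) (lt y 0 2) (lt y 2 3) (lt y 1 3) (lt y 0 3) (lt y 3 4) (lt y 2 4) (lt y 1 4) (lt y 0 4) : ℕ) : ℚ)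

/-- weight of the first nine letters -/
def Gq (y : ℕ → ℕ) : ℚ :=
  ((Gw (lt y 0 1) (lt y 1 2) (lt y 0 2) (lt y 2 3) (lt y 1 3) (lt y 0 3) (lt y 3 4) (lt y 2 4) (lt y 1 4) (lt y 0 4) (lt y 4 5) (lt y 3 5) (lt y 2 5) (lt y 1 5) (lt y 5 6) (lt y 4 6) (lt y 3 6) (lt y 2 6) (lt y 6 7) (lt y 5 7) (lt y 4 7) (lt y 3 7) (lt y 7 8) (lt y 6 8) (lt y 5 8) (lt y 4 8) : ℕ) : ℚ)

attribute [local irreducible] FB GT

theorem l5_ab {f : Bool → Bool} (h : ab f = true) (b : Bool) : f b = true := by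
  unfold ab at h
  cases b
  · cases hf : f true
    · rw [hf] at h
      exact absurd h Bool.false_ne_true
    · rw [hf] at h
      exact h
  · cases hf : f true
    · rw [hf] at h
      exact absurd h Bool.false_ne_true
    · rfl

theorem l5_im {c x : Bool} (h : im c x = true) (hc : c = true) : x = true := by
  subst hc
  exact h

theorem l5_wn {n : ℕ} {k : ℕ → Bool} (h : wn n k = true) : k n = true := by
  cases n
  · exact h
  · exact h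

theorem l5_ct {c x z : Bool} (h : cond c x z = true) (hc : c = true) : x = true := by
  subst hc
  exact h

theorem l5_cf {c x z : Bool} (h : cond c x z = true) (hc : c = false) : z = true := by
  subst hc
  exact h

theorem l5_tr (y : ℕ → ℕ) (i j k : ℕ) : tr (lt y i j) (lt y j k) (lt y i k) = true := by
  unfold tr lt
  by_cases h1 : y i < y j
  · by_cases h2 : y j < y k
    · have h3 : y i < y k := h1.trans h2
      simp [h1, h2, h3]
    · simp [h1, h2]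
  · by_cases h2 : y j < y k
    · simp [h1, h2]
    · have h3 : ¬ y i < y k := by omega
      simp [h1, h2, h3]

theorem l5_ex_lt (w M n r : ℕ) (hM : 0 < M) : ex w M n r < M := Nat.mod_lt _ hM

theorem l5_comm (a b c : ℕ) : Nat.add a (Nat.add b c) = Nat.add b (Nat.add a c) :=
  Nat.add_left_comm a b c

theorem l5_c2 (a b : ℕ) : Nat.add a b = Nat.add b a := Nat.add_comm a b

theorem l5_ble2 {g1 f1 g2 f2 f0 g0 : ℕ}
    (h : Nat.ble (Nat.add (Nat.mul (Nat.mul 1000 g1) f1) (Nat.mul (Nat.mul 1000 g2) f2))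
      (Nat.mul (Nat.mul 1639 f0) g0) = true) :
    1000 * g1 * f1 + 1000 * g2 * f2 ≤ 1639 * f0 * g0 :=
  Nat.le_of_ble_eq_true h

theorem l5_ble1 {g1 f1 f0 g0 : ℕ}
    (h : Nat.ble (Nat.mul (Nat.mul 1000 g1) f1) (Nat.mul (Nat.mul 1639 f0) g0) = true) :
    1000 * g1 * f1 ≤ 1639 * f0 * g0 :=
  Nat.le_of_ble_eq_true h

theorem l5_asc (y : ℕ → ℕ) (h45 : lt y 4 5 = true) :
    1000 * Gw (lt y 0 1) (lt y 1 2) (lt y 0 2) (lt y 2 3) (lt y 1 3) (lt y 0 3) (lt y 3 4) (lt y 2 4) (lt y 1 4) (lt y 0 4) (lt y 4 5) (lt y 3 5) (lt y 2 5) (lt y 1 5) (lt y 5 6) (lt y 4 6) (lt y 3 6) (lt y 2 6) (lt y 6 7) (lt y 5 7) (lt y 4 7) (lt y 3 7) (lt y 7 8) (lt y 6 8) (lt y 5 8) (lt y 4 8) *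
      Fw (lt y 5 6) (lt y 6 7) (lt y 5 7) (lt y 7 8) (lt y 6 8) (lt y 5 8) (lt y 8 9) (lt y 7 9) (lt y 6 9) (lt y 5 9) +
    1000 * Gw (lt y 0 1) (lt y 1 2) (lt y 0 2) (lt y 2 3) (lt y 1 3) (lt y 0 3) (lt y 3 5) (lt y 2 5) (lt y 1 5) (lt y 0 5) false (lt y 3 4) (lt y 2 4) (lt y 1 4) (lt y 4 6) (lt y 5 6) (lt y 3 6) (lt y 2 6) (lt y 6 7) (lt y 4 7) (lt y 5 7) (lt y 3 7) (lt y 7 8) (lt y 6 8) (lt y 4 8) (lt y 5 8) *
      Fw (lt y 4 6) (lt y 6 7) (lt y 4 7) (lt y 7 8) (lt y 6 8) (lt y 4 8) (lt y 8 9) (lt y 7 9) (lt y 6 9) (lt y 4 9) ≤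
    1639 * Fw (lt y 0 1) (lt y 1 2) (lt y 0 2) (lt y 2 3) (lt y 1 3) (lt y 0 3) (lt y 3 4) (lt y 2 4) (lt y 1 4) (lt y 0 4) *
      Gw (lt y 1 2) (lt y 2 3) (lt y 1 3) (lt y 3 4) (lt y 2 4) (lt y 1 4) (lt y 4 5) (lt y 3 5) (lt y 2 5) (lt y 1 5) (lt y 5 6) (lt y 4 6) (lt y 3 6) (lt y 2 6) (lt y 6 7) (lt y 5 7) (lt y 4 7) (lt y 3 7) (lt y 7 8) (lt y 6 8) (lt y 5 8) (lt y 4 8) (lt y 8 9) (lt y 7 9) (lt y 6 9) (lt y 5 9) := by
  have h := chk_all (lt y 0 1) (lt y 1 2) (lt y 0 2) (lt y 2 3) (lt y 1 3) (lt y 0 3) (lt y 3 4) (lt y 2 4) (lt y 1 4) (lt y 0 4)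
    (l5_tr y 0 1 2) (l5_tr y 1 2 3) (l5_tr y 0 1 3) (l5_tr y 0 2 3)
    (l5_tr y 2 3 4) (l5_tr y 1 2 4) (l5_tr y 1 3 4) (l5_tr y 0 1 4) (l5_tr y 0 2 4) (l5_tr y 0 3 4)
  unfold chk at h
  replace h := l5_wn h
  replace h := l5_wn h
  replace h := l5_ab h (lt y 4 5)
  replace h := l5_ab h (lt y 3 5)
  replace h := l5_im h (l5_tr y 3 4 5)
  replace h := l5_ab h (lt y 2 5)
  replace h := l5_im h (l5_tr y 2 3 5)
  replace h := l5_im h (l5_tr y 2 4 5)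
  replace h := l5_ab h (lt y 1 5)
  replace h := l5_im h (l5_tr y 1 2 5)
  replace h := l5_im h (l5_tr y 1 3 5)
  replace h := l5_im h (l5_tr y 1 4 5)
  replace h := l5_wn h
  replace h := l5_wn h
  replace h := l5_ct h h45
  unfold chkA at h
  replace h := l5_ab h (lt y 0 5)
  replace h := l5_im h (l5_tr y 0 1 5)
  replace h := l5_im h (l5_tr y 0 2 5)
  replace h := l5_im h (l5_tr y 0 3 5)
  replace h := l5_im h (l5_tr y 0 4 5)
  replace h := l5_wn h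
  replace h := l5_ab h (lt y 5 6)
  replace h := l5_ab h (lt y 4 6)
  replace h := l5_im h (l5_tr y 4 5 6)
  replace h := l5_ab h (lt y 3 6)
  replace h := l5_im h (l5_tr y 3 4 6)
  replace h := l5_im h (l5_tr y 3 5 6)
  replace h := l5_ab h (lt y 2 6)
  replace h := l5_im h (l5_tr y 2 3 6)
  replace h := l5_im h (l5_tr y 2 4 6)
  replace h := l5_im h (l5_tr y 2 5 6)
  replace h := l5_wn h
  replace h := l5_wn h
  replace h := l5_wn h
  replace h := l5_wn h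
  replace h := l5_ab h (lt y 6 7)
  replace h := l5_ab h (lt y 5 7)
  replace h := l5_im h (l5_tr y 5 6 7)
  replace h := l5_ab h (lt y 4 7)
  replace h := l5_im h (l5_tr y 4 5 7)
  replace h := l5_im h (l5_tr y 4 6 7)
  replace h := l5_ab h (lt y 3 7)
  replace h := l5_im h (l5_tr y 3 4 7)
  replace h := l5_im h (l5_tr y 3 5 7)
  replace h := l5_im h (l5_tr y 3 6 7)
  replace h := l5_wn h
  replace h := l5_wn h
  replace h := l5_wn h
  replace h := l5_wn h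
  replace h := l5_ab h (lt y 7 8)
  replace h := l5_ab h (lt y 6 8)
  replace h := l5_im h (l5_tr y 6 7 8)
  replace h := l5_ab h (lt y 5 8)
  replace h := l5_im h (l5_tr y 5 6 8)
  replace h := l5_im h (l5_tr y 5 7 8)
  replace h := l5_ab h (lt y 4 8)
  replace h := l5_im h (l5_tr y 4 5 8)
  replace h := l5_im h (l5_tr y 4 6 8)
  replace h := l5_im h (l5_tr y 4 7 8)
  replace h := l5_wn h
  replace h := l5_wn h
  replace h := l5_wn h
  replace h := l5_wn h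
  replace h := l5_wn h
  replace h := l5_wn h
  replace h := l5_ab h (lt y 8 9)
  replace h := l5_ab h (lt y 7 9)
  replace h := l5_im h (l5_tr y 7 8 9)
  replace h := l5_ab h (lt y 6 9)
  replace h := l5_im h (l5_tr y 6 7 9)
  replace h := l5_im h (l5_tr y 6 8 9)
  replace h := l5_ab h (lt y 5 9)
  replace h := l5_im h (l5_tr y 5 6 9)
  replace h := l5_im h (l5_tr y 5 7 9)
  replace h := l5_im h (l5_tr y 5 8 9)
  replace h := l5_ab h (lt y 4 9)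
  replace h := l5_im h (l5_tr y 4 5 9)
  replace h := l5_im h (l5_tr y 4 6 9)
  replace h := l5_im h (l5_tr y 4 7 9)
  replace h := l5_im h (l5_tr y 4 8 9)
  have ez : Gw (lt y 0 1) (lt y 1 2) (lt y 0 2) (lt y 2 3) (lt y 1 3) (lt y 0 3) (lt y 3 5) (lt y 2 5) (lt y 1 5) (lt y 0 5) false (lt y 3 4) (lt y 2 4) (lt y 1 4) (lt y 4 6) (lt y 5 6) (lt y 3 6) (lt y 2 6) (lt y 6 7) (lt y 4 7) (lt y 5 7) (lt y 3 7) (lt y 7 8) (lt y 6 8) (lt y 4 8) (lt y 5 8) =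
      Nat.add (ex 20 1048576 (ex 100 m1 (ex 500 m5 (ex 2500 m25
        ((((((((((GT.dn (lt y 0 1)).dn (lt y 1 2)).dn (lt y 0 2)).dn (lt y 2 3)).dn (lt y 1 3)).dn
          (lt y 0 3)).dn (lt y 3 5)).dn (lt y 2 5)).dn (lt y 1 5)).dn (lt y 0 5)).vl
        (Nat.add (bn false) (Nat.add (bn (lt y 3 4)) (Nat.add (bn (lt y 2 4)) (bn (lt y 1 4))))))
        (Nat.add (bn (lt y 5 6)) (Nat.add (bn (lt y 4 6)) (Nat.add (bn (lt y 3 6)) (bn (lt y 2 6))))))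
        (Nat.add (bn (lt y 6 7)) (Nat.add (bn (lt y 5 7)) (Nat.add (bn (lt y 4 7)) (bn (lt y 3 7))))))
        (Nat.add (bn (lt y 7 8)) (Nat.add (bn (lt y 6 8)) (Nat.add (bn (lt y 5 8)) (bn (lt y 4 8)))))) 1 := by
    unfold Gw
    rw [l5_comm (bn (lt y 4 6)) (bn (lt y 5 6)), l5_comm (bn (lt y 4 7)) (bn (lt y 5 7)),
      l5_c2 (bn (lt y 4 8)) (bn (lt y 5 8))]
  rw [ez]
  exact l5_ble2 h

theorem l5_desc (y : ℕ → ℕ) (h45 : lt y 4 5 = false) :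
    1000 * Gw (lt y 0 1) (lt y 1 2) (lt y 0 2) (lt y 2 3) (lt y 1 3) (lt y 0 3) (lt y 3 4) (lt y 2 4) (lt y 1 4) (lt y 0 4) (lt y 4 5) (lt y 3 5) (lt y 2 5) (lt y 1 5) (lt y 5 6) (lt y 4 6) (lt y 3 6) (lt y 2 6) (lt y 6 7) (lt y 5 7) (lt y 4 7) (lt y 3 7) (lt y 7 8) (lt y 6 8) (lt y 5 8) (lt y 4 8) *
      Fw (lt y 5 6) (lt y 6 7) (lt y 5 7) (lt y 7 8) (lt y 6 8) (lt y 5 8) (lt y 8 9) (lt y 7 9) (lt y 6 9) (lt y 5 9) ≤
    1639 * Fw (lt y 0 1) (lt y 1 2) (lt y 0 2) (lt y 2 3) (lt y 1 3) (lt y 0 3) (lt y 3 4) (lt y 2 4) (lt y 1 4) (lt y 0 4) *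
      Gw (lt y 1 2) (lt y 2 3) (lt y 1 3) (lt y 3 4) (lt y 2 4) (lt y 1 4) (lt y 4 5) (lt y 3 5) (lt y 2 5) (lt y 1 5) (lt y 5 6) (lt y 4 6) (lt y 3 6) (lt y 2 6) (lt y 6 7) (lt y 5 7) (lt y 4 7) (lt y 3 7) (lt y 7 8) (lt y 6 8) (lt y 5 8) (lt y 4 8) (lt y 8 9) (lt y 7 9) (lt y 6 9) (lt y 5 9) := by
  have h := chk_all (lt y 0 1) (lt y 1 2) (lt y 0 2) (lt y 2 3) (lt y 1 3) (lt y 0 3) (lt y 3 4) (lt y 2 4) (lt y 1 4) (lt y 0 4)
    (l5_tr y 0 1 2) (l5_tr y 1 2 3) (l5_tr y 0 1 3) (l5_tr y 0 2 3)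
    (l5_tr y 2 3 4) (l5_tr y 1 2 4) (l5_tr y 1 3 4) (l5_tr y 0 1 4) (l5_tr y 0 2 4) (l5_tr y 0 3 4)
  unfold chk at h
  replace h := l5_wn h
  replace h := l5_wn h
  replace h := l5_ab h (lt y 4 5)
  replace h := l5_ab h (lt y 3 5)
  replace h := l5_im h (l5_tr y 3 4 5)
  replace h := l5_ab h (lt y 2 5)
  replace h := l5_im h (l5_tr y 2 3 5)
  replace h := l5_im h (l5_tr y 2 4 5)
  replace h := l5_ab h (lt y 1 5)
  replace h := l5_im h (l5_tr y 1 2 5)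
  replace h := l5_im h (l5_tr y 1 3 5)
  replace h := l5_im h (l5_tr y 1 4 5)
  replace h := l5_wn h
  replace h := l5_wn h
  replace h := l5_cf h h45
  unfold chkD at h
  replace h := l5_ab h (lt y 5 6)
  replace h := l5_ab h (lt y 4 6)
  replace h := l5_im h (l5_tr y 4 5 6)
  replace h := l5_ab h (lt y 3 6)
  replace h := l5_im h (l5_tr y 3 4 6)
  replace h := l5_im h (l5_tr y 3 5 6)
  replace h := l5_ab h (lt y 2 6)
  replace h := l5_im h (l5_tr y 2 3 6)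
  replace h := l5_im h (l5_tr y 2 4 6)
  replace h := l5_im h (l5_tr y 2 5 6)
  replace h := l5_wn h
  replace h := l5_wn h
  replace h := l5_wn h
  replace h := l5_ab h (lt y 6 7)
  replace h := l5_ab h (lt y 5 7)
  replace h := l5_im h (l5_tr y 5 6 7)
  replace h := l5_ab h (lt y 4 7)
  replace h := l5_im h (l5_tr y 4 5 7)
  replace h := l5_im h (l5_tr y 4 6 7)
  replace h := l5_ab h (lt y 3 7)
  replace h := l5_im h (l5_tr y 3 4 7)
  replace h := l5_im h (l5_tr y 3 5 7)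
  replace h := l5_im h (l5_tr y 3 6 7)
  replace h := l5_wn h
  replace h := l5_wn h
  replace h := l5_wn h
  replace h := l5_ab h (lt y 7 8)
  replace h := l5_ab h (lt y 6 8)
  replace h := l5_im h (l5_tr y 6 7 8)
  replace h := l5_ab h (lt y 5 8)
  replace h := l5_im h (l5_tr y 5 6 8)
  replace h := l5_im h (l5_tr y 5 7 8)
  replace h := l5_ab h (lt y 4 8)
  replace h := l5_im h (l5_tr y 4 5 8)
  replace h := l5_im h (l5_tr y 4 6 8)
  replace h := l5_im h (l5_tr y 4 7 8)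
  replace h := l5_wn h
  replace h := l5_wn h
  replace h := l5_wn h
  replace h := l5_wn h
  replace h := l5_ab h (lt y 8 9)
  replace h := l5_ab h (lt y 7 9)
  replace h := l5_im h (l5_tr y 7 8 9)
  replace h := l5_ab h (lt y 6 9)
  replace h := l5_im h (l5_tr y 6 7 9)
  replace h := l5_im h (l5_tr y 6 8 9)
  replace h := l5_ab h (lt y 5 9)
  replace h := l5_im h (l5_tr y 5 6 9)
  replace h := l5_im h (l5_tr y 5 7 9)
  replace h := l5_im h (l5_tr y 5 8 9)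
  exact l5_ble1 h

theorem l5_sw (y : ℕ → ℕ) (i j i' j' : ℕ) (hi : Equiv.swap 4 5 i = i')
    (hj : Equiv.swap 4 5 j = j') : lt (sw 5 y) i j = lt y i' j' := by
  subst hi
  subst hj
  rfl

theorem l5_sh (r : ℕ) (y : ℕ → ℕ) (i j i' j' : ℕ) (hi : i + r = i') (hj : j + r = j') :
    lt (sh r y) i j = lt y i' j' := by
  subst hi
  subst hj
  rfl

theorem l5_shsw (y : ℕ → ℕ) (i j i' j' : ℕ) (hi : Equiv.swap 4 5 (i + 5) = i')
    (hj : Equiv.swap 4 5 (j + 5) = j') : lt (sh 5 (sw 5 y)) i j = lt y i' j' := by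
  subst hi
  subst hj
  rfl

theorem l5_Gsw (y : ℕ → ℕ) : Gq (sw 5 y) = ((Gw (lt y 0 1) (lt y 1 2) (lt y 0 2) (lt y 2 3) (lt y 1 3) (lt y 0 3) (lt y 3 5) (lt y 2 5) (lt y 1 5) (lt y 0 5) (lt y 5 4) (lt y 3 4) (lt y 2 4) (lt y 1 4) (lt y 4 6) (lt y 5 6) (lt y 3 6) (lt y 2 6) (lt y 6 7) (lt y 4 7) (lt y 5 7) (lt y 3 7) (lt y 7 8) (lt y 6 8) (lt y 4 8) (lt y 5 8) : ℕ) : ℚ) := by
  unfold Gq
  rw [l5_sw y 0 1 0 1 (by decide) (by decide), l5_sw y 1 2 1 2 (by decide) (by decide), l5_sw y 0 2 0 2 (by decide) (by decide), l5_sw y 2 3 2 3 (by decide) (by decide), l5_sw y 1 3 1 3 (by decide) (by decide), l5_sw y 0 3 0 3 (by decide) (by decide), l5_sw y 3 4 3 5 (by decide) (by decide), l5_sw y 2 4 2 5 (by decide) (by decide), l5_sw y 1 4 1 5 (by decide) (by decide), l5_sw y 0 4 0 5 (by decide) (by decide), l5_sw y 4 5 5 4 (by decide) (by decide), l5_sw y 3 5 3 4 (by decide) (by decide),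 l5_sw y 2 5 2 4 (by decide) (by decide), l5_sw y 1 5 1 4 (by decide) (by decide), l5_sw y 5 6 4 6 (by decide) (by decide), l5_sw y 4 6 5 6 (by decide) (by decide), l5_sw y 3 6 3 6 (by decide) (by decide), l5_sw y 2 6 2 6 (by decide) (by decide), l5_sw y 6 7 6 7 (by decide) (by decide), l5_sw y 5 7 4 7 (by decide) (by decide), l5_sw y 4 7 5 7 (by decide) (by decide), l5_sw y 3 7 3 7 (by decide) (by decide), l5_sw y 7 8 7 8 (by decide) (by decide), l5_sw y 6 8 6 8 (by decide) (by decide), l5_sw y 5 8 4 8 (by decide) (by decide), l5_sw y 4 8 5 8 (by decide) (by decide)]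

theorem l5_Fsh (y : ℕ → ℕ) : Fq (sh 5 y) = ((Fw (lt y 5 6) (lt y 6 7) (lt y 5 7) (lt y 7 8) (lt y 6 8) (lt y 5 8) (lt y 8 9) (lt y 7 9) (lt y 6 9) (lt y 5 9) : ℕ) : ℚ) := by
  unfold Fq
  rw [l5_sh 5 y 0 1 5 6 (by decide) (by decide), l5_sh 5 y 1 2 6 7 (by decide) (by decide), l5_sh 5 y 0 2 5 7 (by decide) (by decide), l5_sh 5 y 2 3 7 8 (by decide) (by decide), l5_sh 5 y 1 3 6 8 (by decide) (by decide), l5_sh 5 y 0 3 5 8 (by decide) (by decide), l5_sh 5 y 3 4 8 9 (by decide) (by decide), l5_sh 5 y 2 4 7 9 (by decide) (by decide), l5_sh 5 y 1 4 6 9 (by decide) (by decide), l5_sh 5 y 0 4 5 9 (by decide) (by decide)]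

theorem l5_Gsh (y : ℕ → ℕ) : Gq (sh 1 y) = ((Gw (lt y 1 2) (lt y 2 3) (lt y 1 3) (lt y 3 4) (lt y 2 4) (lt y 1 4) (lt y 4 5) (lt y 3 5) (lt y 2 5) (lt y 1 5) (lt y 5 6) (lt y 4 6) (lt y 3 6) (lt y 2 6) (lt y 6 7) (lt y 5 7) (lt y 4 7) (lt y 3 7) (lt y 7 8) (lt y 6 8) (lt y 5 8) (lt y 4 8) (lt y 8 9) (lt y 7 9) (lt y 6 9) (lt y 5 9) : ℕ) : ℚ) := by
  unfold Gq
  rw [l5_sh 1 y 0 1 1 2 (by decide) (by decide), l5_sh 1 y 1 2 2 3 (by decide) (by decide), l5_sh 1 y 0 2 1 3 (by decide) (by decide), l5_sh 1 y 2 3 3 4 (by decide) (by decide), l5_sh 1 y 1 3 2 4 (by decide) (by decide), l5_sh 1 y 0 3 1 4 (by decide) (by decide), l5_sh 1 y 3 4 4 5 (by decide) (by decide), l5_sh 1 y 2 4 3 5 (by decide) (by decide), l5_sh 1 y 1 4 2 5 (by decide) (by decide), l5_sh 1 y 0 4 1 5 (by decide) (by decide), l5_sh 1 y 4 5 5 6 (by decide) (by decide), l5_sh 1 y 3 5 4 6 (by decide) (by decide), l5_sh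 1 y 2 5 3 6 (by decide) (by decide), l5_sh 1 y 1 5 2 6 (by decide) (by decide), l5_sh 1 y 5 6 6 7 (by decide) (by decide), l5_sh 1 y 4 6 5 7 (by decide) (by decide), l5_sh 1 y 3 6 4 7 (by decide) (by decide), l5_sh 1 y 2 6 3 7 (by decide) (by decide), l5_sh 1 y 6 7 7 8 (by decide) (by decide), l5_sh 1 y 5 7 6 8 (by decide) (by decide), l5_sh 1 y 4 7 5 8 (by decide) (by decide), l5_sh 1 y 3 7 4 8 (by decide) (by decide), l5_sh 1 y 7 8 8 9 (by decide) (by decide), l5_sh 1 y 6 8 7 9 (by decide) (by decide), l5_sh 1 y 5 8 6 9 (by decide) (by decide), l5_sh 1 y 4 8 5 9 (by decide) (by decide)]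

theorem l5_Fshsw (y : ℕ → ℕ) : Fq (sh 5 (sw 5 y)) = ((Fw (lt y 4 6) (lt y 6 7) (lt y 4 7) (lt y 7 8) (lt y 6 8) (lt y 4 8) (lt y 8 9) (lt y 7 9) (lt y 6 9) (lt y 4 9) : ℕ) : ℚ) := by
  unfold Fq
  rw [l5_shsw y 0 1 4 6 (by decide) (by decide), l5_shsw y 1 2 6 7 (by decide) (by decide), l5_shsw y 0 2 4 7 (by decide) (by decide), l5_shsw y 2 3 7 8 (by decide) (by decide), l5_shsw y 1 3 6 8 (by decide) (by decide), l5_shsw y 0 3 4 8 (by decide) (by decide), l5_shsw y 3 4 8 9 (by decide) (by decide), l5_shsw y 2 4 7 9 (by decide) (by decide), l5_shsw y 1 4 6 9 (by decide) (by decide), l5_shsw y 0 4 4 9 (by decide) (by decide)]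

theorem l5_locF (y z : ℕ → ℕ) (h : ∀ i, i < 5 → y i = z i) : Fq y = Fq z := by
  unfold Fq lt
  rw [h 0 (by norm_num), h 1 (by norm_num), h 2 (by norm_num), h 3 (by norm_num), h 4 (by norm_num)]

theorem l5_locG (y z : ℕ → ℕ) (h : ∀ i, i < 9 → y i = z i) : Gq y = Gq z := by
  unfold Gq lt
  rw [h 0 (by norm_num), h 1 (by norm_num), h 2 (by norm_num), h 3 (by norm_num), h 4 (by norm_num), h 5 (by norm_num), h 6 (by norm_num), h 7 (by norm_num), h 8 (by norm_num)]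

theorem l5_Fq_bd (y : ℕ → ℕ) : 1 ≤ Fq y ∧ Fq y ≤ 1048576 := by
  unfold Fq Fw
  constructor
  · exact_mod_cast Nat.le_add_left 1 _
  · have h1 := l5_ex_lt 12 4096 (ex 60 m6 FB (Nat.add (Nat.mul (Nat.add (Nat.mul (bn (lt y 0 1)) 3)
      (Nat.add (bn (lt y 1 2)) (bn (lt y 0 2)))) 4) (Nat.add (bn (lt y 2 3)) (Nat.add (bn (lt y 1 3))
      (bn (lt y 0 3)))))) (Nat.add (bn (lt y 3 4)) (Nat.add (bn (lt y 2 4)) (Nat.add (bn (lt y 1 4))
      (bn (lt y 0 4))))) (by norm_num)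
    exact_mod_cast (show _ ≤ 1048576 from le_trans (Nat.succ_le_of_lt h1) (by norm_num))

theorem l5_Gq_bd (y : ℕ → ℕ) : 1 ≤ Gq y ∧ Gq y ≤ 1048576 := by
  unfold Gq Gw
  constructor
  · exact_mod_cast Nat.le_add_left 1 _
  · exact_mod_cast Nat.succ_le_of_lt (l5_ex_lt 20 1048576 _ _ (by norm_num))

theorem l5_arith2 {g1 f1 g2 f2 f0 g0 : ℕ} (h : 1000 * g1 * f1 + 1000 * g2 * f2 ≤ 1639 * f0 * g0) :
    (g1 : ℚ) * f1 + (g2 : ℚ) * f2 ≤ 1639 / 1000 * ((f0 : ℚ) * g0) := by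
  have h' : (1000 : ℚ) * g1 * f1 + 1000 * g2 * f2 ≤ 1639 * f0 * g0 := by
    exact_mod_cast h
  linarith

theorem l5_arith1 {g1 f1 f0 g0 : ℕ} (h : 1000 * g1 * f1 ≤ 1639 * f0 * g0) :
    (g1 : ℚ) * f1 + 0 ≤ 1639 / 1000 * ((f0 : ℚ) * g0) := by
  have h' : (1000 : ℚ) * g1 * f1 ≤ 1639 * f0 * g0 := by
    exact_mod_cast h
  linarith

theorem l5_ineq (y : ℕ → ℕ) :
    Gq y * Fq (sh 5 y) + (if y (5 - 1) < y 5 then Gq (sw 5 y) * Fq (sh 5 (sw 5 y)) else 0) ≤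
      1639 / 1000 * (Fq y * Gq (sh 1 y)) := by
  rw [l5_Gsw, l5_Fsh, l5_Gsh, l5_Fshsw]
  by_cases h45 : y 4 < y 5
  · have h45' : y (5 - 1) < y 5 := h45
    have hb : lt y 4 5 = true := decide_eq_true h45
    have hc : lt y 5 4 = false := decide_eq_false (by omega)
    rw [if_pos h45', hc]
    unfold Gq Fq
    exact l5_arith2 (l5_asc y hb)
  · have h45' : ¬ y (5 - 1) < y 5 := h45
    have hb : lt y 4 5 = false := decide_eq_false h45
    rw [if_neg h45']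
    unfold Gq Fq
    exact l5_arith1 (l5_desc y hb)

/-- **The certificate.** -/
theorem locw : LocW 5 Fq Gq 1048576 (1639 / 1000) where
  hk := by norm_num
  hL := by norm_num
  locF := l5_locF
  locG := l5_locG
  F1 := fun y => (l5_Fq_bd y).1
  FA := fun y => (l5_Fq_bd y).2
  G1 := fun y => (l5_Gq_bd y).1
  GA := fun y => (l5_Gq_bd y).2
  ineq := fun y _ => l5_ineq y

end Pool.Agent.helper54.Upb.Five
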