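import Pool.Agent.helper54.Upb.FinU
import Pool.Agent.helper54.Upb.Loc5

/-!
# The upper bound for the principal evaluations
-/

set_option autoImplicit false
open Finset Equiv Pool.Agent.helper54.Schub

namespace Pool.Agent.helper54.Upb

/-- explicit bound for all `n` -/
theorem upper (n : ℕ) (S : Perm (Fin n) → MvPolynomial (Fin n) ℤ) (hS : IsSchubert n S)
    (w : Perm (Fin n)) :
    ((nu S w : ℤ) : ℝ) ≤ 2 ^ (140 * n + 100) * (1639 / 1000 : ℝ) ^ (n * (n - 1) / 2) := by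
  have h := nu_le Five.locw n S hS w
  have h1 : (((nu S w : ℤ) : ℚ) : ℝ) ≤
      (((1048576 : ℚ) ^ ((5 + 2) * n + 5) * (1639 / 1000) ^ (n * (n - 1) / 2) : ℚ) : ℝ) := by
    exact_mod_cast h
  have h2 : ((1048576 : ℝ)) ^ ((5 + 2) * n + 5) = 2 ^ (140 * n + 100) := by
    rw [show (1048576 : ℝ) = 2 ^ 20 by norm_num, ← pow_mul]
    congr 1
    ring
  rw [← h2]
  push_cast at h1
  exact h1

/-- asymptotic form -/
theorem upper_asymp : ∃ n₀ : ℕ, ∀ n : ℕ, n₀ ≤ n →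
    ∀ S : Perm (Fin n) → MvPolynomial (Fin n) ℤ, IsSchubert n S →
      ∀ w : Perm (Fin n), ((nu S w : ℤ) : ℝ) ≤ (2 : ℝ) ^ ((0.3565 : ℝ) * (n : ℝ) ^ 2) := by
  obtain ⟨n₀, h⟩ := nu_le_two_pow Five.locw 77 108 (by norm_num) (by norm_num)
  refine ⟨n₀, fun n hn S hS w => (h n hn S hS w).trans ?_⟩
  apply Real.rpow_le_rpow_of_exponent_le (by norm_num)
  apply mul_le_mul_of_nonneg_right _ (sq_nonneg _)
  norm_num

end Pool.Agent.helper54.Upb
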