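import Pool.Agent.helper54.Upb.Cert5

/-!
# The large certificate: kernel check, part 2
-/

set_option autoImplicit false

namespace Pool.Agent.helper54.Upb.Five

theorem c15 : chk true true true false false false true true true true = true := by decide +kernel
theorem c16 : chk true true true false false false true false true true = true := by decide +kernel
theorem c17 : chk true true true false false false true false false true = true := by decide +kernel
theorem c18 : chk true true true false false false true false false false = true := by decide +kernel
theorem c19 : chk true true true false false false false false false false = true := by decide +kernel
theorem c20 : chk true false true true true true true true true true = true := by decide +kernel
theorem c21 : chk true false true true true true false true true true = true := by decide +kernel
theorem c22 : chk true false true true true true false true false true = true := by decide +kernel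
theorem c23 : chk true false true true true true false false false true = true := by decide +kernel
theorem c24 : chk true false true true true true false false false false = true := by decide +kernel
theorem c25 : chk true false true true false true true true true true = true := by decide +kernel
theorem c26 : chk true false true true false true true true false true = true := by decide +kernel
theorem c27 : chk true false true true false true false true false true = true := by decide +kernel
theorem c28 : chk true false true true false true false false false true = true := by decide +kernel
theorem c29 : chk true false true true false true false false false false = true := by decide +kernel

end Pool.Agent.helper54.Upb.Five
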