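import Pool.Agent.helper54.Upb.Cert5

/-!
# The large certificate: kernel check, part 3
-/

set_option autoImplicit false

namespace Pool.Agent.helper54.Upb.Five

theorem c30 : chk true false true false false true true true true true = true := by decide +kernel
theorem c31 : chk true false true false false true true true false true = true := by decide +kernel
theorem c32 : chk true false true false false true true false false true = true := by decide +kernel
theorem c33 : chk true false true false false true false false false true = true := by decide +kernel
theorem c34 : chk true false true false false true false false false false = true := by decide +kernel
theorem c35 : chk true false true false false false true true true true = true := by decide +kernel
theorem c36 : chk true false true false false false true true false true = true := by decide +kernel
theorem c37 : chk true false true false false false true false false true = true := by decide +kernel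
theorem c38 : chk true false true false false false true false false false = true := by decide +kernel
theorem c39 : chk true false true false false false false false false false = true := by decide +kernel
theorem c40 : chk true false false true true true true true true true = true := by decide +kernel
theorem c41 : chk true false false true true true false true true true = true := by decide +kernel
theorem c42 : chk true false false true true true false true false true = true := by decide +kernel
theorem c43 : chk true false false true true true false true false false = true := by decide +kernel
theorem c44 : chk true false false true true true false false false false = true := by decide +kernel

end Pool.Agent.helper54.Upb.Five
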