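import Pool.Agent.helper54.Upb.Cert5

/-!
# The large certificate: kernel check, part 4
-/

set_option autoImplicit false

namespace Pool.Agent.helper54.Upb.Five

theorem c45 : chk true false false true false true true true true true = true := by decide +kernel
theorem c46 : chk true false false true false true true true false true = true := by decide +kernel
theorem c47 : chk true false false true false true false true false true = true := by decide +kernel
theorem c48 : chk true false false true false true false true false false = true := by decide +kernel
theorem c49 : chk true false false true false true false false false false = true := by decide +kernel
theorem c50 : chk true false false true false false true true true true = true := by decide +kernel
theorem c51 : chk true false false true false false true true false true = true := by decide +kernel
theorem c52 : chk true false false true false false true true false false = true := by decide +kernel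
theorem c53 : chk true false false true false false false true false false = true := by decide +kernel
theorem c54 : chk true false false true false false false false false false = true := by decide +kernel
theorem c55 : chk true false false false false false true true true true = true := by decide +kernel
theorem c56 : chk true false false false false false true true false true = true := by decide +kernel
theorem c57 : chk true false false false false false true true false false = true := by decide +kernel
theorem c58 : chk true false false false false false true false false false = true := by decide +kernel
theorem c59 : chk true false false false false false false false false false = true := by decide +kernel

end Pool.Agent.helper54.Upb.Five
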