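import Pool.Agent.helper54.Upb.Cert5

/-!
# The large certificate: kernel check, part 5
-/

set_option autoImplicit false

namespace Pool.Agent.helper54.Upb.Five

theorem c60 : chk false true true true true true true true true true = true := by decide +kernel
theorem c61 : chk false true true true true true false true true true = true := by decide +kernel
theorem c62 : chk false true true true true true false false true true = true := by decide +kernel
theorem c63 : chk false true true true true true false false true false = true := by decide +kernel
theorem c64 : chk false true true true true true false false false false = true := by decide +kernel
theorem c65 : chk false true true false true true true true true true = true := by decide +kernel
theorem c66 : chk false true true false true true true false true true = true := by decide +kernel
theorem c67 : chk false true true false true true false false true true = true := by decide +kernel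
theorem c68 : chk false true true false true true false false true false = true := by decide +kernel
theorem c69 : chk false true true false true true false false false false = true := by decide +kernel
theorem c70 : chk false true true false true false true true true true = true := by decide +kernel
theorem c71 : chk false true true false true false true false true true = true := by decide +kernel
theorem c72 : chk false true true false true false true false true false = true := by decide +kernel
theorem c73 : chk false true true false true false false false true false = true := by decide +kernel
theorem c74 : chk false true true false true false false false false false = true := by decide +kernel

end Pool.Agent.helper54.Upb.Five
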