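import Pool.Agent.helper54.Upb.Cert5

/-!
# The large certificate: kernel check, part 6
-/

set_option autoImplicit false

namespace Pool.Agent.helper54.Upb.Five

theorem c75 : chk false true true false false false true true true true = true := by decide +kernel
theorem c76 : chk false true true false false false true false true true = true := by decide +kernel
theorem c77 : chk false true true false false false true false true false = true := by decide +kernel
theorem c78 : chk false true true false false false true false false false = true := by decide +kernel
theorem c79 : chk false true true false false false false false false false = true := by decide +kernel
theorem c80 : chk false true false true true true true true true true = true := by decide +kernel
theorem c81 : chk false true false true true true false true true true = true := by decide +kernel
theorem c82 : chk false true false true true true false true true false = true := by decide +kernel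
theorem c83 : chk false true false true true true false false true false = true := by decide +kernel
theorem c84 : chk false true false true true true false false false false = true := by decide +kernel
theorem c85 : chk false true false true true false true true true true = true := by decide +kernel
theorem c86 : chk false true false true true false true true true false = true := by decide +kernel
theorem c87 : chk false true false true true false false true true false = true := by decide +kernel
theorem c88 : chk false true false true true false false false true false = true := by decide +kernel
theorem c89 : chk false true false true true false false false false false = true := by decide +kernel

end Pool.Agent.helper54.Upb.Five
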