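import Pool.Agent.helper54.Upb.Cert5

/-!
# The large certificate: kernel check, part 7
-/

set_option autoImplicit false

namespace Pool.Agent.helper54.Upb.Five

theorem c90 : chk false true false false true false true true true true = true := by decide +kernel
theorem c91 : chk false true false false true false true true true false = true := by decide +kernel
theorem c92 : chk false true false false true false true false true false = true := by decide +kernel
theorem c93 : chk false true false false true false false false true false = true := by decide +kernel
theorem c94 : chk false true false false true false false false false false = true := by decide +kernel
theorem c95 : chk false true false false false false true true true true = true := by decide +kernel
theorem c96 : chk false true false false false false true true true false = true := by decide +kernel
theorem c97 : chk false true false false false false true false true false = true := by decide +kernel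
theorem c98 : chk false true false false false false true false false false = true := by decide +kernel
theorem c99 : chk false true false false false false false false false false = true := by decide +kernel
theorem c100 : chk false false false true true true true true true true = true := by decide +kernel
theorem c101 : chk false false false true true true false true true true = true := by decide +kernel
theorem c102 : chk false false false true true true false true true false = true := by decide +kernel
theorem c103 : chk false false false true true true false true false false = true := by decide +kernel
theorem c104 : chk false false false true true true false false false false = true := by decide +kernel

end Pool.Agent.helper54.Upb.Five
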