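import Pool.Agent.helper54.Upb.Cert5

/-!
# The large certificate: kernel check, part 8
-/

set_option autoImplicit false

namespace Pool.Agent.helper54.Upb.Five

theorem c105 : chk false false false true true false true true true true = true := by decide +kernel
theorem c106 : chk false false false true true false true true true false = true := by decide +kernel
theorem c107 : chk false false false true true false false true true false = true := by decide +kernel
theorem c108 : chk false false false true true false false true false false = true := by decide +kernel
theorem c109 : chk false false false true true false false false false false = true := by decide +kernel
theorem c110 : chk false false false true false false true true true true = true := by decide +kernel
theorem c111 : chk false false false true false false true true true false = true := by decide +kernel
theorem c112 : chk false false false true false false true true false false = true := by decide +kernel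
theorem c113 : chk false false false true false false false true false false = true := by decide +kernel
theorem c114 : chk false false false true false false false false false false = true := by decide +kernel
theorem c115 : chk false false false false false false true true true true = true := by decide +kernel
theorem c116 : chk false false false false false false true true true false = true := by decide +kernel
theorem c117 : chk false false false false false false true true false false = true := by decide +kernel
theorem c118 : chk false false false false false false true false false false = true := by decide +kernel
theorem c119 : chk false false false false false false false false false false = true := by decide +kernel

end Pool.Agent.helper54.Upb.Five
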