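import Pool.Agent.helper54.Upb.Chk5x1
import Pool.Agent.helper54.Upb.Chk5x2
import Pool.Agent.helper54.Upb.Chk5x3
import Pool.Agent.helper54.Upb.Chk5x4
import Pool.Agent.helper54.Upb.Chk5x5
import Pool.Agent.helper54.Upb.Chk5x6
import Pool.Agent.helper54.Upb.Chk5x7
import Pool.Agent.helper54.Upb.Chk5x8

/-!
# The large certificate: all cases
-/

set_option autoImplicit false

namespace Pool.Agent.helper54.Upb.Five

theorem d0 : ∀ b34 b24 b14 b04 : Bool,
    tr true b34 b24 = true → tr true b24 b14 = true → tr true b34 b14 = true →
    tr true b14 b04 = true → tr true b24 b04 = true → tr true b34 b04 = true →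
    chk true true true true true true b34 b24 b14 b04 = true
  | true, true, true, true, _, _, _, _, _, _ => c0
  | true, true, true, false, _, _, _, h, _, _ => absurd h Bool.false_ne_true
  | true, true, false, true, _, h, _, _, _, _ => absurd h Bool.false_ne_true
  | true, true, false, false, _, h, _, _, _, _ => absurd h Bool.false_ne_true
  | true, false, true, true, h, _, _, _, _, _ => absurd h Bool.false_ne_true
  | true, false, true, false, h, _, _, _, _, _ => absurd h Bool.false_ne_true
  | true, false, false, true, h, _, _, _, _, _ => absurd h Bool.false_ne_true
  | true, false, false, false, h, _, _, _, _, _ => absurd h Bool.false_ne_true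
  | false, true, true, true, _, _, _, _, _, _ => c1
  | false, true, true, false, _, _, _, h, _, _ => absurd h Bool.false_ne_true
  | false, true, false, true, _, h, _, _, _, _ => absurd h Bool.false_ne_true
  | false, true, false, false, _, h, _, _, _, _ => absurd h Bool.false_ne_true
  | false, false, true, true, _, _, _, _, _, _ => c2
  | false, false, true, false, _, _, _, h, _, _ => absurd h Bool.false_ne_true
  | false, false, false, true, _, _, _, _, _, _ => c3
  | false, false, false, false, _, _, _, _, _, _ => c4

theorem d1 : ∀ b34 b24 b14 b04 : Bool,
    tr false b34 b24 = true → tr true b24 b14 = true → tr true b34 b14 = true →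
    tr true b14 b04 = true → tr true b24 b04 = true → tr true b34 b04 = true →
    chk true true true false true true b34 b24 b14 b04 = true
  | true, true, true, true, _, _, _, _, _, _ => c5
  | true, true, true, false, _, _, _, h, _, _ => absurd h Bool.false_ne_true
  | true, true, false, true, _, h, _, _, _, _ => absurd h Bool.false_ne_true
  | true, true, false, false, _, h, _, _, _, _ => absurd h Bool.false_ne_true
  | true, false, true, true, _, _, _, _, _, _ => c6
  | true, false, true, false, _, _, _, h, _, _ => absurd h Bool.false_ne_true
  | true, false, false, true, _, _, h, _, _, _ => absurd h Bool.false_ne_true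
  | true, false, false, false, _, _, h, _, _, _ => absurd h Bool.false_ne_true
  | false, true, true, true, h, _, _, _, _, _ => absurd h Bool.false_ne_true
  | false, true, true, false, h, _, _, _, _, _ => absurd h Bool.false_ne_true
  | false, true, false, true, h, _, _, _, _, _ => absurd h Bool.false_ne_true
  | false, true, false, false, h, _, _, _, _, _ => absurd h Bool.false_ne_true
  | false, false, true, true, _, _, _, _, _, _ => c7
  | false, false, true, false, _, _, _, h, _, _ => absurd h Bool.false_ne_true
  | false, false, false, true, _, _, _, _, _, _ => c8
  | false, false, false, false, _, _, _, _, _, _ => c9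

theorem d2 : ∀ b34 b24 b14 b04 : Bool,
    tr false b34 b24 = true → tr true b24 b14 = true → tr false b34 b14 = true →
    tr true b14 b04 = true → tr true b24 b04 = true → tr true b34 b04 = true →
    chk true true true false false true b34 b24 b14 b04 = true
  | true, true, true, true, _, _, _, _, _, _ => c10
  | true, true, true, false, _, _, _, h, _, _ => absurd h Bool.false_ne_true
  | true, true, false, true, _, h, _, _, _, _ => absurd h Bool.false_ne_true
  | true, true, false, false, _, h, _, _, _, _ => absurd h Bool.false_ne_true
  | true, false, true, true, _, _, _, _, _, _ => c11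
  | true, false, true, false, _, _, _, h, _, _ => absurd h Bool.false_ne_true
  | true, false, false, true, _, _, _, _, _, _ => c12
  | true, false, false, false, _, _, _, _, _, h => absurd h Bool.false_ne_true
  | false, true, true, true, h, _, _, _, _, _ => absurd h Bool.false_ne_true
  | false, true, true, false, h, _, _, _, _, _ => absurd h Bool.false_ne_true
  | false, true, false, true, h, _, _, _, _, _ => absurd h Bool.false_ne_true
  | false, true, false, false, h, _, _, _, _, _ => absurd h Bool.false_ne_true
  | false, false, true, true, _, _, h, _, _, _ => absurd h Bool.false_ne_true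
  | false, false, true, false, _, _, h, _, _, _ => absurd h Bool.false_ne_true
  | false, false, false, true, _, _, _, _, _, _ => c13
  | false, false, false, false, _, _, _, _, _, _ => c14

theorem d3 : ∀ b34 b24 b14 b04 : Bool,
    tr false b34 b24 = true → tr true b24 b14 = true → tr false b34 b14 = true →
    tr true b14 b04 = true → tr true b24 b04 = true → tr false b34 b04 = true →
    chk true true true false false false b34 b24 b14 b04 = true
  | true, true, true, true, _, _, _, _, _, _ => c15
  | true, true, true, false, _, _, _, h, _, _ => absurd h Bool.false_ne_true
  | true, true, false, true, _, h, _, _, _, _ => absurd h Bool.false_ne_true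
  | true, true, false, false, _, h, _, _, _, _ => absurd h Bool.false_ne_true
  | true, false, true, true, _, _, _, _, _, _ => c16
  | true, false, true, false, _, _, _, h, _, _ => absurd h Bool.false_ne_true
  | true, false, false, true, _, _, _, _, _, _ => c17
  | true, false, false, false, _, _, _, _, _, _ => c18
  | false, true, true, true, h, _, _, _, _, _ => absurd h Bool.false_ne_true
  | false, true, true, false, h, _, _, _, _, _ => absurd h Bool.false_ne_true
  | false, true, false, true, h, _, _, _, _, _ => absurd h Bool.false_ne_true
  | false, true, false, false, h, _, _, _, _, _ => absurd h Bool.false_ne_true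
  | false, false, true, true, _, _, h, _, _, _ => absurd h Bool.false_ne_true
  | false, false, true, false, _, _, h, _, _, _ => absurd h Bool.false_ne_true
  | false, false, false, true, _, _, _, _, _, h => absurd h Bool.false_ne_true
  | false, false, false, false, _, _, _, _, _, _ => c19

theorem d4 : ∀ b34 b24 b14 b04 : Bool,
    tr true b34 b24 = true → tr false b24 b14 = true → tr true b34 b14 = true →
    tr true b14 b04 = true → tr true b24 b04 = true → tr true b34 b04 = true →
    chk true false true true true true b34 b24 b14 b04 = true
  | true, true, true, true, _, _, _, _, _, _ => c20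
  | true, true, true, false, _, _, _, h, _, _ => absurd h Bool.false_ne_true
  | true, true, false, true, _, _, h, _, _, _ => absurd h Bool.false_ne_true
  | true, true, false, false, _, _, h, _, _, _ => absurd h Bool.false_ne_true
  | true, false, true, true, h, _, _, _, _, _ => absurd h Bool.false_ne_true
  | true, false, true, false, h, _, _, _, _, _ => absurd h Bool.false_ne_true
  | true, false, false, true, h, _, _, _, _, _ => absurd h Bool.false_ne_true
  | true, false, false, false, h, _, _, _, _, _ => absurd h Bool.false_ne_true
  | false, true, true, true, _, _, _, _, _, _ => c21
  | false, true, true, false, _, _, _, h, _, _ => absurd h Bool.false_ne_true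
  | false, true, false, true, _, _, _, _, _, _ => c22
  | false, true, false, false, _, _, _, _, h, _ => absurd h Bool.false_ne_true
  | false, false, true, true, _, h, _, _, _, _ => absurd h Bool.false_ne_true
  | false, false, true, false, _, h, _, _, _, _ => absurd h Bool.false_ne_true
  | false, false, false, true, _, _, _, _, _, _ => c23
  | false, false, false, false, _, _, _, _, _, _ => c24

theorem d5 : ∀ b34 b24 b14 b04 : Bool,
    tr true b34 b24 = true → tr false b24 b14 = true → tr false b34 b14 = true →
    tr true b14 b04 = true → tr true b24 b04 = true → tr true b34 b04 = true →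
    chk true false true true false true b34 b24 b14 b04 = true
  | true, true, true, true, _, _, _, _, _, _ => c25
  | true, true, true, false, _, _, _, h, _, _ => absurd h Bool.false_ne_true
  | true, true, false, true, _, _, _, _, _, _ => c26
  | true, true, false, false, _, _, _, _, h, _ => absurd h Bool.false_ne_true
  | true, false, true, true, h, _, _, _, _, _ => absurd h Bool.false_ne_true
  | true, false, true, false, h, _, _, _, _, _ => absurd h Bool.false_ne_true
  | true, false, false, true, h, _, _, _, _, _ => absurd h Bool.false_ne_true
  | true, false, false, false, h, _, _, _, _, _ => absurd h Bool.false_ne_true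
  | false, true, true, true, _, _, h, _, _, _ => absurd h Bool.false_ne_true
  | false, true, true, false, _, _, h, _, _, _ => absurd h Bool.false_ne_true
  | false, true, false, true, _, _, _, _, _, _ => c27
  | false, true, false, false, _, _, _, _, h, _ => absurd h Bool.false_ne_true
  | false, false, true, true, _, h, _, _, _, _ => absurd h Bool.false_ne_true
  | false, false, true, false, _, h, _, _, _, _ => absurd h Bool.false_ne_true
  | false, false, false, true, _, _, _, _, _, _ => c28
  | false, false, false, false, _, _, _, _, _, _ => c29

theorem d6 : ∀ b34 b24 b14 b04 : Bool,
    tr false b34 b24 = true → tr false b24 b14 = true → tr false b34 b14 = true →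
    tr true b14 b04 = true → tr true b24 b04 = true → tr true b34 b04 = true →
    chk true false true false false true b34 b24 b14 b04 = true
  | true, true, true, true, _, _, _, _, _, _ => c30
  | true, true, true, false, _, _, _, h, _, _ => absurd h Bool.false_ne_true
  | true, true, false, true, _, _, _, _, _, _ => c31
  | true, true, false, false, _, _, _, _, h, _ => absurd h Bool.false_ne_true
  | true, false, true, true, _, h, _, _, _, _ => absurd h Bool.false_ne_true
  | true, false, true, false, _, h, _, _, _, _ => absurd h Bool.false_ne_true
  | true, false, false, true, _, _, _, _, _, _ => c32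
  | true, false, false, false, _, _, _, _, _, h => absurd h Bool.false_ne_true
  | false, true, true, true, h, _, _, _, _, _ => absurd h Bool.false_ne_true
  | false, true, true, false, h, _, _, _, _, _ => absurd h Bool.false_ne_true
  | false, true, false, true, h, _, _, _, _, _ => absurd h Bool.false_ne_true
  | false, true, false, false, h, _, _, _, _, _ => absurd h Bool.false_ne_true
  | false, false, true, true, _, h, _, _, _, _ => absurd h Bool.false_ne_true
  | false, false, true, false, _, h, _, _, _, _ => absurd h Bool.false_ne_true
  | false, false, false, true, _, _, _, _, _, _ => c33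
  | false, false, false, false, _, _, _, _, _, _ => c34

theorem d7 : ∀ b34 b24 b14 b04 : Bool,
    tr false b34 b24 = true → tr false b24 b14 = true → tr false b34 b14 = true →
    tr true b14 b04 = true → tr true b24 b04 = true → tr false b34 b04 = true →
    chk true false true false false false b34 b24 b14 b04 = true
  | true, true, true, true, _, _, _, _, _, _ => c35
  | true, true, true, false, _, _, _, h, _, _ => absurd h Bool.false_ne_true
  | true, true, false, true, _, _, _, _, _, _ => c36
  | true, true, false, false, _, _, _, _, h, _ => absurd h Bool.false_ne_true
  | true, false, true, true, _, h, _, _, _, _ => absurd h Bool.false_ne_true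
  | true, false, true, false, _, h, _, _, _, _ => absurd h Bool.false_ne_true
  | true, false, false, true, _, _, _, _, _, _ => c37
  | true, false, false, false, _, _, _, _, _, _ => c38
  | false, true, true, true, h, _, _, _, _, _ => absurd h Bool.false_ne_true
  | false, true, true, false, h, _, _, _, _, _ => absurd h Bool.false_ne_true
  | false, true, false, true, h, _, _, _, _, _ => absurd h Bool.false_ne_true
  | false, true, false, false, h, _, _, _, _, _ => absurd h Bool.false_ne_true
  | false, false, true, true, _, h, _, _, _, _ => absurd h Bool.false_ne_true
  | false, false, true, false, _, h, _, _, _, _ => absurd h Bool.false_ne_true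
  | false, false, false, true, _, _, _, _, _, h => absurd h Bool.false_ne_true
  | false, false, false, false, _, _, _, _, _, _ => c39

theorem d8 : ∀ b34 b24 b14 b04 : Bool,
    tr true b34 b24 = true → tr false b24 b14 = true → tr true b34 b14 = true →
    tr true b14 b04 = true → tr false b24 b04 = true → tr true b34 b04 = true →
    chk true false false true true true b34 b24 b14 b04 = true
  | true, true, true, true, _, _, _, _, _, _ => c40
  | true, true, true, false, _, _, _, h, _, _ => absurd h Bool.false_ne_true
  | true, true, false, true, _, _, h, _, _, _ => absurd h Bool.false_ne_true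
  | true, true, false, false, _, _, h, _, _, _ => absurd h Bool.false_ne_true
  | true, false, true, true, h, _, _, _, _, _ => absurd h Bool.false_ne_true
  | true, false, true, false, h, _, _, _, _, _ => absurd h Bool.false_ne_true
  | true, false, false, true, h, _, _, _, _, _ => absurd h Bool.false_ne_true
  | true, false, false, false, h, _, _, _, _, _ => absurd h Bool.false_ne_true
  | false, true, true, true, _, _, _, _, _, _ => c41
  | false, true, true, false, _, _, _, h, _, _ => absurd h Bool.false_ne_true
  | false, true, false, true, _, _, _, _, _, _ => c42
  | false, true, false, false, _, _, _, _, _, _ => c43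
  | false, false, true, true, _, h, _, _, _, _ => absurd h Bool.false_ne_true
  | false, false, true, false, _, h, _, _, _, _ => absurd h Bool.false_ne_true
  | false, false, false, true, _, _, _, _, h, _ => absurd h Bool.false_ne_true
  | false, false, false, false, _, _, _, _, _, _ => c44

theorem d9 : ∀ b34 b24 b14 b04 : Bool,
    tr true b34 b24 = true → tr false b24 b14 = true → tr false b34 b14 = true →
    tr true b14 b04 = true → tr false b24 b04 = true → tr true b34 b04 = true →
    chk true false false true false true b34 b24 b14 b04 = true
  | true, true, true, true, _, _, _, _, _, _ => c45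
  | true, true, true, false, _, _, _, h, _, _ => absurd h Bool.false_ne_true
  | true, true, false, true, _, _, _, _, _, _ => c46
  | true, true, false, false, _, _, _, _, _, h => absurd h Bool.false_ne_true
  | true, false, true, true, h, _, _, _, _, _ => absurd h Bool.false_ne_true
  | true, false, true, false, h, _, _, _, _, _ => absurd h Bool.false_ne_true
  | true, false, false, true, h, _, _, _, _, _ => absurd h Bool.false_ne_true
  | true, false, false, false, h, _, _, _, _, _ => absurd h Bool.false_ne_true
  | false, true, true, true, _, _, h, _, _, _ => absurd h Bool.false_ne_true
  | false, true, true, false, _, _, h, _, _, _ => absurd h Bool.false_ne_true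
  | false, true, false, true, _, _, _, _, _, _ => c47
  | false, true, false, false, _, _, _, _, _, _ => c48
  | false, false, true, true, _, h, _, _, _, _ => absurd h Bool.false_ne_true
  | false, false, true, false, _, h, _, _, _, _ => absurd h Bool.false_ne_true
  | false, false, false, true, _, _, _, _, h, _ => absurd h Bool.false_ne_true
  | false, false, false, false, _, _, _, _, _, _ => c49

theorem d10 : ∀ b34 b24 b14 b04 : Bool,
    tr true b34 b24 = true → tr false b24 b14 = true → tr false b34 b14 = true →
    tr true b14 b04 = true → tr false b24 b04 = true → tr false b34 b04 = true →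
    chk true false false true false false b34 b24 b14 b04 = true
  | true, true, true, true, _, _, _, _, _, _ => c50
  | true, true, true, false, _, _, _, h, _, _ => absurd h Bool.false_ne_true
  | true, true, false, true, _, _, _, _, _, _ => c51
  | true, true, false, false, _, _, _, _, _, _ => c52
  | true, false, true, true, h, _, _, _, _, _ => absurd h Bool.false_ne_true
  | true, false, true, false, h, _, _, _, _, _ => absurd h Bool.false_ne_true
  | true, false, false, true, h, _, _, _, _, _ => absurd h Bool.false_ne_true
  | true, false, false, false, h, _, _, _, _, _ => absurd h Bool.false_ne_true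
  | false, true, true, true, _, _, h, _, _, _ => absurd h Bool.false_ne_true
  | false, true, true, false, _, _, h, _, _, _ => absurd h Bool.false_ne_true
  | false, true, false, true, _, _, _, _, _, h => absurd h Bool.false_ne_true
  | false, true, false, false, _, _, _, _, _, _ => c53
  | false, false, true, true, _, h, _, _, _, _ => absurd h Bool.false_ne_true
  | false, false, true, false, _, h, _, _, _, _ => absurd h Bool.false_ne_true
  | false, false, false, true, _, _, _, _, h, _ => absurd h Bool.false_ne_true
  | false, false, false, false, _, _, _, _, _, _ => c54

theorem d11 : ∀ b34 b24 b14 b04 : Bool,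
    tr false b34 b24 = true → tr false b24 b14 = true → tr false b34 b14 = true →
    tr true b14 b04 = true → tr false b24 b04 = true → tr false b34 b04 = true →
    chk true false false false false false b34 b24 b14 b04 = true
  | true, true, true, true, _, _, _, _, _, _ => c55
  | true, true, true, false, _, _, _, h, _, _ => absurd h Bool.false_ne_true
  | true, true, false, true, _, _, _, _, _, _ => c56
  | true, true, false, false, _, _, _, _, _, _ => c57
  | true, false, true, true, _, h, _, _, _, _ => absurd h Bool.false_ne_true
  | true, false, true, false, _, h, _, _, _, _ => absurd h Bool.false_ne_true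
  | true, false, false, true, _, _, _, _, h, _ => absurd h Bool.false_ne_true
  | true, false, false, false, _, _, _, _, _, _ => c58
  | false, true, true, true, h, _, _, _, _, _ => absurd h Bool.false_ne_true
  | false, true, true, false, h, _, _, _, _, _ => absurd h Bool.false_ne_true
  | false, true, false, true, h, _, _, _, _, _ => absurd h Bool.false_ne_true
  | false, true, false, false, h, _, _, _, _, _ => absurd h Bool.false_ne_true
  | false, false, true, true, _, h, _, _, _, _ => absurd h Bool.false_ne_true
  | false, false, true, false, _, h, _, _, _, _ => absurd h Bool.false_ne_true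
  | false, false, false, true, _, _, _, _, h, _ => absurd h Bool.false_ne_true
  | false, false, false, false, _, _, _, _, _, _ => c59

theorem d12 : ∀ b34 b24 b14 b04 : Bool,
    tr true b34 b24 = true → tr true b24 b14 = true → tr true b34 b14 = true →
    tr false b14 b04 = true → tr true b24 b04 = true → tr true b34 b04 = true →
    chk false true true true true true b34 b24 b14 b04 = true
  | true, true, true, true, _, _, _, _, _, _ => c60
  | true, true, true, false, _, _, _, _, h, _ => absurd h Bool.false_ne_true
  | true, true, false, true, _, h, _, _, _, _ => absurd h Bool.false_ne_true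
  | true, true, false, false, _, h, _, _, _, _ => absurd h Bool.false_ne_true
  | true, false, true, true, h, _, _, _, _, _ => absurd h Bool.false_ne_true
  | true, false, true, false, h, _, _, _, _, _ => absurd h Bool.false_ne_true
  | true, false, false, true, h, _, _, _, _, _ => absurd h Bool.false_ne_true
  | true, false, false, false, h, _, _, _, _, _ => absurd h Bool.false_ne_true
  | false, true, true, true, _, _, _, _, _, _ => c61
  | false, true, true, false, _, _, _, _, h, _ => absurd h Bool.false_ne_true
  | false, true, false, true, _, h, _, _, _, _ => absurd h Bool.false_ne_true
  | false, true, false, false, _, h, _, _, _, _ => absurd h Bool.false_ne_true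
  | false, false, true, true, _, _, _, _, _, _ => c62
  | false, false, true, false, _, _, _, _, _, _ => c63
  | false, false, false, true, _, _, _, h, _, _ => absurd h Bool.false_ne_true
  | false, false, false, false, _, _, _, _, _, _ => c64

theorem d13 : ∀ b34 b24 b14 b04 : Bool,
    tr false b34 b24 = true → tr true b24 b14 = true → tr true b34 b14 = true →
    tr false b14 b04 = true → tr true b24 b04 = true → tr true b34 b04 = true →
    chk false true true false true true b34 b24 b14 b04 = true
  | true, true, true, true, _, _, _, _, _, _ => c65
  | true, true, true, false, _, _, _, _, h, _ => absurd h Bool.false_ne_true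
  | true, true, false, true, _, h, _, _, _, _ => absurd h Bool.false_ne_true
  | true, true, false, false, _, h, _, _, _, _ => absurd h Bool.false_ne_true
  | true, false, true, true, _, _, _, _, _, _ => c66
  | true, false, true, false, _, _, _, _, _, h => absurd h Bool.false_ne_true
  | true, false, false, true, _, _, h, _, _, _ => absurd h Bool.false_ne_true
  | true, false, false, false, _, _, h, _, _, _ => absurd h Bool.false_ne_true
  | false, true, true, true, h, _, _, _, _, _ => absurd h Bool.false_ne_true
  | false, true, true, false, h, _, _, _, _, _ => absurd h Bool.false_ne_true
  | false, true, false, true, h, _, _, _, _, _ => absurd h Bool.false_ne_true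
  | false, true, false, false, h, _, _, _, _, _ => absurd h Bool.false_ne_true
  | false, false, true, true, _, _, _, _, _, _ => c67
  | false, false, true, false, _, _, _, _, _, _ => c68
  | false, false, false, true, _, _, _, h, _, _ => absurd h Bool.false_ne_true
  | false, false, false, false, _, _, _, _, _, _ => c69

theorem d14 : ∀ b34 b24 b14 b04 : Bool,
    tr false b34 b24 = true → tr true b24 b14 = true → tr true b34 b14 = true →
    tr false b14 b04 = true → tr true b24 b04 = true → tr false b34 b04 = true →
    chk false true true false true false b34 b24 b14 b04 = true
  | true, true, true, true, _, _, _, _, _, _ => c70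
  | true, true, true, false, _, _, _, _, h, _ => absurd h Bool.false_ne_true
  | true, true, false, true, _, h, _, _, _, _ => absurd h Bool.false_ne_true
  | true, true, false, false, _, h, _, _, _, _ => absurd h Bool.false_ne_true
  | true, false, true, true, _, _, _, _, _, _ => c71
  | true, false, true, false, _, _, _, _, _, _ => c72
  | true, false, false, true, _, _, h, _, _, _ => absurd h Bool.false_ne_true
  | true, false, false, false, _, _, h, _, _, _ => absurd h Bool.false_ne_true
  | false, true, true, true, h, _, _, _, _, _ => absurd h Bool.false_ne_true
  | false, true, true, false, h, _, _, _, _, _ => absurd h Bool.false_ne_true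
  | false, true, false, true, h, _, _, _, _, _ => absurd h Bool.false_ne_true
  | false, true, false, false, h, _, _, _, _, _ => absurd h Bool.false_ne_true
  | false, false, true, true, _, _, _, _, _, h => absurd h Bool.false_ne_true
  | false, false, true, false, _, _, _, _, _, _ => c73
  | false, false, false, true, _, _, _, h, _, _ => absurd h Bool.false_ne_true
  | false, false, false, false, _, _, _, _, _, _ => c74

theorem d15 : ∀ b34 b24 b14 b04 : Bool,
    tr false b34 b24 = true → tr true b24 b14 = true → tr false b34 b14 = true →
    tr false b14 b04 = true → tr true b24 b04 = true → tr false b34 b04 = true →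
    chk false true true false false false b34 b24 b14 b04 = true
  | true, true, true, true, _, _, _, _, _, _ => c75
  | true, true, true, false, _, _, _, _, h, _ => absurd h Bool.false_ne_true
  | true, true, false, true, _, h, _, _, _, _ => absurd h Bool.false_ne_true
  | true, true, false, false, _, h, _, _, _, _ => absurd h Bool.false_ne_true
  | true, false, true, true, _, _, _, _, _, _ => c76
  | true, false, true, false, _, _, _, _, _, _ => c77
  | true, false, false, true, _, _, _, h, _, _ => absurd h Bool.false_ne_true
  | true, false, false, false, _, _, _, _, _, _ => c78
  | false, true, true, true, h, _, _, _, _, _ => absurd h Bool.false_ne_true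
  | false, true, true, false, h, _, _, _, _, _ => absurd h Bool.false_ne_true
  | false, true, false, true, h, _, _, _, _, _ => absurd h Bool.false_ne_true
  | false, true, false, false, h, _, _, _, _, _ => absurd h Bool.false_ne_true
  | false, false, true, true, _, _, h, _, _, _ => absurd h Bool.false_ne_true
  | false, false, true, false, _, _, h, _, _, _ => absurd h Bool.false_ne_true
  | false, false, false, true, _, _, _, h, _, _ => absurd h Bool.false_ne_true
  | false, false, false, false, _, _, _, _, _, _ => c79

theorem d16 : ∀ b34 b24 b14 b04 : Bool,
    tr true b34 b24 = true → tr true b24 b14 = true → tr true b34 b14 = true →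
    tr false b14 b04 = true → tr false b24 b04 = true → tr true b34 b04 = true →
    chk false true false true true true b34 b24 b14 b04 = true
  | true, true, true, true, _, _, _, _, _, _ => c80
  | true, true, true, false, _, _, _, _, _, h => absurd h Bool.false_ne_true
  | true, true, false, true, _, h, _, _, _, _ => absurd h Bool.false_ne_true
  | true, true, false, false, _, h, _, _, _, _ => absurd h Bool.false_ne_true
  | true, false, true, true, h, _, _, _, _, _ => absurd h Bool.false_ne_true
  | true, false, true, false, h, _, _, _, _, _ => absurd h Bool.false_ne_true
  | true, false, false, true, h, _, _, _, _, _ => absurd h Bool.false_ne_true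
  | true, false, false, false, h, _, _, _, _, _ => absurd h Bool.false_ne_true
  | false, true, true, true, _, _, _, _, _, _ => c81
  | false, true, true, false, _, _, _, _, _, _ => c82
  | false, true, false, true, _, h, _, _, _, _ => absurd h Bool.false_ne_true
  | false, true, false, false, _, h, _, _, _, _ => absurd h Bool.false_ne_true
  | false, false, true, true, _, _, _, _, h, _ => absurd h Bool.false_ne_true
  | false, false, true, false, _, _, _, _, _, _ => c83
  | false, false, false, true, _, _, _, h, _, _ => absurd h Bool.false_ne_true
  | false, false, false, false, _, _, _, _, _, _ => c84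

theorem d17 : ∀ b34 b24 b14 b04 : Bool,
    tr true b34 b24 = true → tr true b24 b14 = true → tr true b34 b14 = true →
    tr false b14 b04 = true → tr false b24 b04 = true → tr false b34 b04 = true →
    chk false true false true true false b34 b24 b14 b04 = true
  | true, true, true, true, _, _, _, _, _, _ => c85
  | true, true, true, false, _, _, _, _, _, _ => c86
  | true, true, false, true, _, h, _, _, _, _ => absurd h Bool.false_ne_true
  | true, true, false, false, _, h, _, _, _, _ => absurd h Bool.false_ne_true
  | true, false, true, true, h, _, _, _, _, _ => absurd h Bool.false_ne_true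
  | true, false, true, false, h, _, _, _, _, _ => absurd h Bool.false_ne_true
  | true, false, false, true, h, _, _, _, _, _ => absurd h Bool.false_ne_true
  | true, false, false, false, h, _, _, _, _, _ => absurd h Bool.false_ne_true
  | false, true, true, true, _, _, _, _, _, h => absurd h Bool.false_ne_true
  | false, true, true, false, _, _, _, _, _, _ => c87
  | false, true, false, true, _, h, _, _, _, _ => absurd h Bool.false_ne_true
  | false, true, false, false, _, h, _, _, _, _ => absurd h Bool.false_ne_true
  | false, false, true, true, _, _, _, _, h, _ => absurd h Bool.false_ne_true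
  | false, false, true, false, _, _, _, _, _, _ => c88
  | false, false, false, true, _, _, _, h, _, _ => absurd h Bool.false_ne_true
  | false, false, false, false, _, _, _, _, _, _ => c89

theorem d18 : ∀ b34 b24 b14 b04 : Bool,
    tr false b34 b24 = true → tr true b24 b14 = true → tr true b34 b14 = true →
    tr false b14 b04 = true → tr false b24 b04 = true → tr false b34 b04 = true →
    chk false true false false true false b34 b24 b14 b04 = true
  | true, true, true, true, _, _, _, _, _, _ => c90
  | true, true, true, false, _, _, _, _, _, _ => c91
  | true, true, false, true, _, h, _, _, _, _ => absurd h Bool.false_ne_true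
  | true, true, false, false, _, h, _, _, _, _ => absurd h Bool.false_ne_true
  | true, false, true, true, _, _, _, _, h, _ => absurd h Bool.false_ne_true
  | true, false, true, false, _, _, _, _, _, _ => c92
  | true, false, false, true, _, _, h, _, _, _ => absurd h Bool.false_ne_true
  | true, false, false, false, _, _, h, _, _, _ => absurd h Bool.false_ne_true
  | false, true, true, true, h, _, _, _, _, _ => absurd h Bool.false_ne_true
  | false, true, true, false, h, _, _, _, _, _ => absurd h Bool.false_ne_true
  | false, true, false, true, h, _, _, _, _, _ => absurd h Bool.false_ne_true
  | false, true, false, false, h, _, _, _, _, _ => absurd h Bool.false_ne_true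
  | false, false, true, true, _, _, _, _, h, _ => absurd h Bool.false_ne_true
  | false, false, true, false, _, _, _, _, _, _ => c93
  | false, false, false, true, _, _, _, h, _, _ => absurd h Bool.false_ne_true
  | false, false, false, false, _, _, _, _, _, _ => c94

theorem d19 : ∀ b34 b24 b14 b04 : Bool,
    tr false b34 b24 = true → tr true b24 b14 = true → tr false b34 b14 = true →
    tr false b14 b04 = true → tr false b24 b04 = true → tr false b34 b04 = true →
    chk false true false false false false b34 b24 b14 b04 = true
  | true, true, true, true, _, _, _, _, _, _ => c95
  | true, true, true, false, _, _, _, _, _, _ => c96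
  | true, true, false, true, _, h, _, _, _, _ => absurd h Bool.false_ne_true
  | true, true, false, false, _, h, _, _, _, _ => absurd h Bool.false_ne_true
  | true, false, true, true, _, _, _, _, h, _ => absurd h Bool.false_ne_true
  | true, false, true, false, _, _, _, _, _, _ => c97
  | true, false, false, true, _, _, _, h, _, _ => absurd h Bool.false_ne_true
  | true, false, false, false, _, _, _, _, _, _ => c98
  | false, true, true, true, h, _, _, _, _, _ => absurd h Bool.false_ne_true
  | false, true, true, false, h, _, _, _, _, _ => absurd h Bool.false_ne_true
  | false, true, false, true, h, _, _, _, _, _ => absurd h Bool.false_ne_true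
  | false, true, false, false, h, _, _, _, _, _ => absurd h Bool.false_ne_true
  | false, false, true, true, _, _, h, _, _, _ => absurd h Bool.false_ne_true
  | false, false, true, false, _, _, h, _, _, _ => absurd h Bool.false_ne_true
  | false, false, false, true, _, _, _, h, _, _ => absurd h Bool.false_ne_true
  | false, false, false, false, _, _, _, _, _, _ => c99

theorem d20 : ∀ b34 b24 b14 b04 : Bool,
    tr true b34 b24 = true → tr false b24 b14 = true → tr true b34 b14 = true →
    tr false b14 b04 = true → tr false b24 b04 = true → tr true b34 b04 = true →
    chk false false false true true true b34 b24 b14 b04 = true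
  | true, true, true, true, _, _, _, _, _, _ => c100
  | true, true, true, false, _, _, _, _, _, h => absurd h Bool.false_ne_true
  | true, true, false, true, _, _, h, _, _, _ => absurd h Bool.false_ne_true
  | true, true, false, false, _, _, h, _, _, _ => absurd h Bool.false_ne_true
  | true, false, true, true, h, _, _, _, _, _ => absurd h Bool.false_ne_true
  | true, false, true, false, h, _, _, _, _, _ => absurd h Bool.false_ne_true
  | true, false, false, true, h, _, _, _, _, _ => absurd h Bool.false_ne_true
  | true, false, false, false, h, _, _, _, _, _ => absurd h Bool.false_ne_true
  | false, true, true, true, _, _, _, _, _, _ => c101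
  | false, true, true, false, _, _, _, _, _, _ => c102
  | false, true, false, true, _, _, _, h, _, _ => absurd h Bool.false_ne_true
  | false, true, false, false, _, _, _, _, _, _ => c103
  | false, false, true, true, _, h, _, _, _, _ => absurd h Bool.false_ne_true
  | false, false, true, false, _, h, _, _, _, _ => absurd h Bool.false_ne_true
  | false, false, false, true, _, _, _, h, _, _ => absurd h Bool.false_ne_true
  | false, false, false, false, _, _, _, _, _, _ => c104

theorem d21 : ∀ b34 b24 b14 b04 : Bool,
    tr true b34 b24 = true → tr false b24 b14 = true → tr true b34 b14 = true →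
    tr false b14 b04 = true → tr false b24 b04 = true → tr false b34 b04 = true →
    chk false false false true true false b34 b24 b14 b04 = true
  | true, true, true, true, _, _, _, _, _, _ => c105
  | true, true, true, false, _, _, _, _, _, _ => c106
  | true, true, false, true, _, _, h, _, _, _ => absurd h Bool.false_ne_true
  | true, true, false, false, _, _, h, _, _, _ => absurd h Bool.false_ne_true
  | true, false, true, true, h, _, _, _, _, _ => absurd h Bool.false_ne_true
  | true, false, true, false, h, _, _, _, _, _ => absurd h Bool.false_ne_true
  | true, false, false, true, h, _, _, _, _, _ => absurd h Bool.false_ne_true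
  | true, false, false, false, h, _, _, _, _, _ => absurd h Bool.false_ne_true
  | false, true, true, true, _, _, _, _, _, h => absurd h Bool.false_ne_true
  | false, true, true, false, _, _, _, _, _, _ => c107
  | false, true, false, true, _, _, _, h, _, _ => absurd h Bool.false_ne_true
  | false, true, false, false, _, _, _, _, _, _ => c108
  | false, false, true, true, _, h, _, _, _, _ => absurd h Bool.false_ne_true
  | false, false, true, false, _, h, _, _, _, _ => absurd h Bool.false_ne_true
  | false, false, false, true, _, _, _, h, _, _ => absurd h Bool.false_ne_true
  | false, false, false, false, _, _, _, _, _, _ => c109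

theorem d22 : ∀ b34 b24 b14 b04 : Bool,
    tr true b34 b24 = true → tr false b24 b14 = true → tr false b34 b14 = true →
    tr false b14 b04 = true → tr false b24 b04 = true → tr false b34 b04 = true →
    chk false false false true false false b34 b24 b14 b04 = true
  | true, true, true, true, _, _, _, _, _, _ => c110
  | true, true, true, false, _, _, _, _, _, _ => c111
  | true, true, false, true, _, _, _, h, _, _ => absurd h Bool.false_ne_true
  | true, true, false, false, _, _, _, _, _, _ => c112
  | true, false, true, true, h, _, _, _, _, _ => absurd h Bool.false_ne_true
  | true, false, true, false, h, _, _, _, _, _ => absurd h Bool.false_ne_true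
  | true, false, false, true, h, _, _, _, _, _ => absurd h Bool.false_ne_true
  | true, false, false, false, h, _, _, _, _, _ => absurd h Bool.false_ne_true
  | false, true, true, true, _, _, h, _, _, _ => absurd h Bool.false_ne_true
  | false, true, true, false, _, _, h, _, _, _ => absurd h Bool.false_ne_true
  | false, true, false, true, _, _, _, h, _, _ => absurd h Bool.false_ne_true
  | false, true, false, false, _, _, _, _, _, _ => c113
  | false, false, true, true, _, h, _, _, _, _ => absurd h Bool.false_ne_true
  | false, false, true, false, _, h, _, _, _, _ => absurd h Bool.false_ne_true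
  | false, false, false, true, _, _, _, h, _, _ => absurd h Bool.false_ne_true
  | false, false, false, false, _, _, _, _, _, _ => c114

theorem d23 : ∀ b34 b24 b14 b04 : Bool,
    tr false b34 b24 = true → tr false b24 b14 = true → tr false b34 b14 = true →
    tr false b14 b04 = true → tr false b24 b04 = true → tr false b34 b04 = true →
    chk false false false false false false b34 b24 b14 b04 = true
  | true, true, true, true, _, _, _, _, _, _ => c115
  | true, true, true, false, _, _, _, _, _, _ => c116
  | true, true, false, true, _, _, _, h, _, _ => absurd h Bool.false_ne_true
  | true, true, false, false, _, _, _, _, _, _ => c117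
  | true, false, true, true, _, h, _, _, _, _ => absurd h Bool.false_ne_true
  | true, false, true, false, _, h, _, _, _, _ => absurd h Bool.false_ne_true
  | true, false, false, true, _, _, _, h, _, _ => absurd h Bool.false_ne_true
  | true, false, false, false, _, _, _, _, _, _ => c118
  | false, true, true, true, h, _, _, _, _, _ => absurd h Bool.false_ne_true
  | false, true, true, false, h, _, _, _, _, _ => absurd h Bool.false_ne_true
  | false, true, false, true, h, _, _, _, _, _ => absurd h Bool.false_ne_true
  | false, true, false, false, h, _, _, _, _, _ => absurd h Bool.false_ne_true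
  | false, false, true, true, _, h, _, _, _, _ => absurd h Bool.false_ne_true
  | false, false, true, false, _, h, _, _, _, _ => absurd h Bool.false_ne_true
  | false, false, false, true, _, _, _, h, _, _ => absurd h Bool.false_ne_true
  | false, false, false, false, _, _, _, _, _, _ => c119

/-- **All cases of the kernel check.** -/
theorem chk_all : ∀ b01 b12 b02 b23 b13 b03 b34 b24 b14 b04 : Bool, tr b01 b12 b02 = true →
    tr b12 b23 b13 = true → tr b01 b13 b03 = true → tr b02 b23 b03 = true →
    tr b23 b34 b24 = true → tr b12 b24 b14 = true → tr b13 b34 b14 = true →
    tr b01 b14 b04 = true → tr b02 b24 b04 = true → tr b03 b34 b04 = true →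
    chk b01 b12 b02 b23 b13 b03 b34 b24 b14 b04 = true
  | true, true, true, true, true, true, b34, b24, b14, b04, _, _, _, _, h1, h2, h3, h4, h5, h6 =>
    d0 b34 b24 b14 b04 h1 h2 h3 h4 h5 h6
  | true, true, true, true, true, false, _, _, _, _, _, _, h, _, _, _, _, _, _, _ => absurd h Bool.false_ne_true
  | true, true, true, true, false, true, _, _, _, _, _, h, _, _, _, _, _, _, _, _ => absurd h Bool.false_ne_true
  | true, true, true, true, false, false, _, _, _, _, _, h, _, _, _, _, _, _, _, _ => absurd h Bool.false_ne_true
  | true, true, true, false, true, true, b34, b24, b14, b04, _, _, _, _, h1, h2, h3, h4, h5, h6 =>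
    d1 b34 b24 b14 b04 h1 h2 h3 h4 h5 h6
  | true, true, true, false, true, false, _, _, _, _, _, _, h, _, _, _, _, _, _, _ => absurd h Bool.false_ne_true
  | true, true, true, false, false, true, b34, b24, b14, b04, _, _, _, _, h1, h2, h3, h4, h5, h6 =>
    d2 b34 b24 b14 b04 h1 h2 h3 h4 h5 h6
  | true, true, true, false, false, false, b34, b24, b14, b04, _, _, _, _, h1, h2, h3, h4, h5, h6 =>
    d3 b34 b24 b14 b04 h1 h2 h3 h4 h5 h6
  | true, true, false, true, true, true, _, _, _, _, h, _, _, _, _, _, _, _, _, _ => absurd h Bool.false_ne_true
  | true, true, false, true, true, false, _, _, _, _, h, _, _, _, _, _, _, _, _, _ => absurd h Bool.false_ne_true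
  | true, true, false, true, false, true, _, _, _, _, h, _, _, _, _, _, _, _, _, _ => absurd h Bool.false_ne_true
  | true, true, false, true, false, false, _, _, _, _, h, _, _, _, _, _, _, _, _, _ => absurd h Bool.false_ne_true
  | true, true, false, false, true, true, _, _, _, _, h, _, _, _, _, _, _, _, _, _ => absurd h Bool.false_ne_true
  | true, true, false, false, true, false, _, _, _, _, h, _, _, _, _, _, _, _, _, _ => absurd h Bool.false_ne_true
  | true, true, false, false, false, true, _, _, _, _, h, _, _, _, _, _, _, _, _, _ => absurd h Bool.false_ne_true
  | true, true, false, false, false, false, _, _, _, _, h, _, _, _, _, _, _, _, _, _ => absurd h Bool.false_ne_true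
  | true, false, true, true, true, true, b34, b24, b14, b04, _, _, _, _, h1, h2, h3, h4, h5, h6 =>
    d4 b34 b24 b14 b04 h1 h2 h3 h4 h5 h6
  | true, false, true, true, true, false, _, _, _, _, _, _, h, _, _, _, _, _, _, _ => absurd h Bool.false_ne_true
  | true, false, true, true, false, true, b34, b24, b14, b04, _, _, _, _, h1, h2, h3, h4, h5, h6 =>
    d5 b34 b24 b14 b04 h1 h2 h3 h4 h5 h6
  | true, false, true, true, false, false, _, _, _, _, _, _, _, h, _, _, _, _, _, _ => absurd h Bool.false_ne_true
  | true, false, true, false, true, true, _, _, _, _, _, h, _, _, _, _, _, _, _, _ => absurd h Bool.false_ne_true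
  | true, false, true, false, true, false, _, _, _, _, _, h, _, _, _, _, _, _, _, _ => absurd h Bool.false_ne_true
  | true, false, true, false, false, true, b34, b24, b14, b04, _, _, _, _, h1, h2, h3, h4, h5, h6 =>
    d6 b34 b24 b14 b04 h1 h2 h3 h4 h5 h6
  | true, false, true, false, false, false, b34, b24, b14, b04, _, _, _, _, h1, h2, h3, h4, h5, h6 =>
    d7 b34 b24 b14 b04 h1 h2 h3 h4 h5 h6
  | true, false, false, true, true, true, b34, b24, b14, b04, _, _, _, _, h1, h2, h3, h4, h5, h6 =>
    d8 b34 b24 b14 b04 h1 h2 h3 h4 h5 h6
  | true, false, false, true, true, false, _, _, _, _, _, _, h, _, _, _, _, _, _, _ => absurd h Bool.false_ne_true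
  | true, false, false, true, false, true, b34, b24, b14, b04, _, _, _, _, h1, h2, h3, h4, h5, h6 =>
    d9 b34 b24 b14 b04 h1 h2 h3 h4 h5 h6
  | true, false, false, true, false, false, b34, b24, b14, b04, _, _, _, _, h1, h2, h3, h4, h5, h6 =>
    d10 b34 b24 b14 b04 h1 h2 h3 h4 h5 h6
  | true, false, false, false, true, true, _, _, _, _, _, h, _, _, _, _, _, _, _, _ => absurd h Bool.false_ne_true
  | true, false, false, false, true, false, _, _, _, _, _, h, _, _, _, _, _, _, _, _ => absurd h Bool.false_ne_true
  | true, false, false, false, false, true, _, _, _, _, _, _, _, h, _, _, _, _, _, _ => absurd h Bool.false_ne_true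
  | true, false, false, false, false, false, b34, b24, b14, b04, _, _, _, _, h1, h2, h3, h4, h5, h6 =>
    d11 b34 b24 b14 b04 h1 h2 h3 h4 h5 h6
  | false, true, true, true, true, true, b34, b24, b14, b04, _, _, _, _, h1, h2, h3, h4, h5, h6 =>
    d12 b34 b24 b14 b04 h1 h2 h3 h4 h5 h6
  | false, true, true, true, true, false, _, _, _, _, _, _, _, h, _, _, _, _, _, _ => absurd h Bool.false_ne_true
  | false, true, true, true, false, true, _, _, _, _, _, h, _, _, _, _, _, _, _, _ => absurd h Bool.false_ne_true
  | false, true, true, true, false, false, _, _, _, _, _, h, _, _, _, _, _, _, _, _ => absurd h Bool.false_ne_true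
  | false, true, true, false, true, true, b34, b24, b14, b04, _, _, _, _, h1, h2, h3, h4, h5, h6 =>
    d13 b34 b24 b14 b04 h1 h2 h3 h4 h5 h6
  | false, true, true, false, true, false, b34, b24, b14, b04, _, _, _, _, h1, h2, h3, h4, h5, h6 =>
    d14 b34 b24 b14 b04 h1 h2 h3 h4 h5 h6
  | false, true, true, false, false, true, _, _, _, _, _, _, h, _, _, _, _, _, _, _ => absurd h Bool.false_ne_true
  | false, true, true, false, false, false, b34, b24, b14, b04, _, _, _, _, h1, h2, h3, h4, h5, h6 =>
    d15 b34 b24 b14 b04 h1 h2 h3 h4 h5 h6
  | false, true, false, true, true, true, b34, b24, b14, b04, _, _, _, _, h1, h2, h3, h4, h5, h6 =>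
    d16 b34 b24 b14 b04 h1 h2 h3 h4 h5 h6
  | false, true, false, true, true, false, b34, b24, b14, b04, _, _, _, _, h1, h2, h3, h4, h5, h6 =>
    d17 b34 b24 b14 b04 h1 h2 h3 h4 h5 h6
  | false, true, false, true, false, true, _, _, _, _, _, h, _, _, _, _, _, _, _, _ => absurd h Bool.false_ne_true
  | false, true, false, true, false, false, _, _, _, _, _, h, _, _, _, _, _, _, _, _ => absurd h Bool.false_ne_true
  | false, true, false, false, true, true, _, _, _, _, _, _, _, h, _, _, _, _, _, _ => absurd h Bool.false_ne_true
  | false, true, false, false, true, false, b34, b24, b14, b04, _, _, _, _, h1, h2, h3, h4, h5, h6 =>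
    d18 b34 b24 b14 b04 h1 h2 h3 h4 h5 h6
  | false, true, false, false, false, true, _, _, _, _, _, _, h, _, _, _, _, _, _, _ => absurd h Bool.false_ne_true
  | false, true, false, false, false, false, b34, b24, b14, b04, _, _, _, _, h1, h2, h3, h4, h5, h6 =>
    d19 b34 b24 b14 b04 h1 h2 h3 h4 h5 h6
  | false, false, true, true, true, true, _, _, _, _, h, _, _, _, _, _, _, _, _, _ => absurd h Bool.false_ne_true
  | false, false, true, true, true, false, _, _, _, _, h, _, _, _, _, _, _, _, _, _ => absurd h Bool.false_ne_true
  | false, false, true, true, false, true, _, _, _, _, h, _, _, _, _, _, _, _, _, _ => absurd h Bool.false_ne_true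
  | false, false, true, true, false, false, _, _, _, _, h, _, _, _, _, _, _, _, _, _ => absurd h Bool.false_ne_true
  | false, false, true, false, true, true, _, _, _, _, h, _, _, _, _, _, _, _, _, _ => absurd h Bool.false_ne_true
  | false, false, true, false, true, false, _, _, _, _, h, _, _, _, _, _, _, _, _, _ => absurd h Bool.false_ne_true
  | false, false, true, false, false, true, _, _, _, _, h, _, _, _, _, _, _, _, _, _ => absurd h Bool.false_ne_true
  | false, false, true, false, false, false, _, _, _, _, h, _, _, _, _, _, _, _, _, _ => absurd h Bool.false_ne_true
  | false, false, false, true, true, true, b34, b24, b14, b04, _, _, _, _, h1, h2, h3, h4, h5, h6 =>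
    d20 b34 b24 b14 b04 h1 h2 h3 h4 h5 h6
  | false, false, false, true, true, false, b34, b24, b14, b04, _, _, _, _, h1, h2, h3, h4, h5, h6 =>
    d21 b34 b24 b14 b04 h1 h2 h3 h4 h5 h6
  | false, false, false, true, false, true, _, _, _, _, _, _, h, _, _, _, _, _, _, _ => absurd h Bool.false_ne_true
  | false, false, false, true, false, false, b34, b24, b14, b04, _, _, _, _, h1, h2, h3, h4, h5, h6 =>
    d22 b34 b24 b14 b04 h1 h2 h3 h4 h5 h6
  | false, false, false, false, true, true, _, _, _, _, _, h, _, _, _, _, _, _, _, _ => absurd h Bool.false_ne_true
  | false, false, false, false, true, false, _, _, _, _, _, h, _, _, _, _, _, _, _, _ => absurd h Bool.false_ne_true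
  | false, false, false, false, false, true, _, _, _, _, _, _, h, _, _, _, _, _, _, _ => absurd h Bool.false_ne_true
  | false, false, false, false, false, false, b34, b24, b14, b04, _, _, _, _, h1, h2, h3, h4, h5, h6 =>
    d23 b34 b24 b14 b04 h1 h2 h3 h4 h5 h6

end Pool.Agent.helper54.Upb.Five
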