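import Pool.Agent.helper54.Upb.UDefs

/-!
# Upper bound: the weights inside a row
-/

set_option autoImplicit false
open Finset Equiv Pool.Agent.helper54.Schub

namespace Pool.Agent.helper54.Upb

variable {k : ℕ} {F G : (ℕ → ℕ) → ℚ} {A L : ℚ}

/-- `ext k w` is injective -/
theorem ext_inj (k : ℕ) (w : Perm ℕ) : Function.Injective (ext k w) := by
  intro i j h
  unfold ext at h
  split_ifs at h with h1 h2 h2
  · exact h
  · omega
  · omega
  · have h3 : w (i - (k - 1)) = w (j - (k - 1)) := by omega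
    have h4 := w.injective h3
    omega

/-- the letters of the exchanged sequence -/
theorem ext_sj_apply (hk : 2 ≤ k) (j : ℕ) (w : Perm ℕ) (i : ℕ) :
    ext k (w * sj j) (i + j) = ext k w (swap (k - 1) k i + j) := by
  by_cases h1 : i = k - 1
  · subst h1
    rw [swap_apply_left]
    unfold ext
    rw [if_neg (by omega), if_neg (by omega), Perm.mul_apply,
      show k - 1 + j - (k - 1) = j by omega, sj_left, show k + j - (k - 1) = j + 1 by omega]
  · by_cases h2 : i = k
    · subst h2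
      rw [swap_apply_right]
      unfold ext
      rw [if_neg (by omega), if_neg (by omega), Perm.mul_apply,
        show i + j - (i - 1) = j + 1 by omega, sj_right, show i - 1 + j - (i - 1) = j by omega]
    · rw [swap_apply_of_ne_of_ne h1 h2]
      unfold ext
      by_cases h3 : i + j < k - 1
      · rw [if_pos h3, if_pos h3]
      · rw [if_neg h3, if_neg h3, Perm.mul_apply, sj_of_ne (by omega) (by omega)]

/-- the exchange in the sequence -/
theorem ext_sj (hk : 2 ≤ k) (j : ℕ) (w : Perm ℕ) :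
    sh j (ext k (w * sj j)) = sw k (sh j (ext k w)) := by
  funext i
  exact ext_sj_apply hk j w i

/-- the other letters do not change -/
theorem ext_sj_ne (hk : 2 ≤ k) (j : ℕ) (w : Perm ℕ) (i : ℕ) (h1 : i ≠ j + k - 1)
    (h2 : i ≠ j + k) : ext k (w * sj j) i = ext k w i := by
  unfold ext
  by_cases h3 : i < k - 1
  · rw [if_pos h3, if_pos h3]
  · rw [if_neg h3, if_neg h3, Perm.mul_apply, sj_of_ne (by omega) (by omega)]

theorem sh_sh (a b : ℕ) (y : ℕ → ℕ) : sh a (sh b y) = sh (b + a) y := by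
  funext i
  unfold sh
  rw [show i + a + b = i + (b + a) by omega]

theorem stp_prod_nonneg (h : LocW k F G A L) (s : Finset ℕ) (x : ℕ → ℕ) :
    0 ≤ ∏ i ∈ s, F (sh i x) :=
  prod_nonneg fun i _ => zero_le_one.trans (h.F1 _)

theorem stp_prod_one_le (h : LocW k F G A L) (s : Finset ℕ) (x : ℕ → ℕ) :
    1 ≤ ∏ i ∈ s, F (sh i x) := by
  induction s using Finset.induction_on with
  | empty => simp
  | insert a s ha ih =>
    rw [prod_insert ha]
    exact one_le_mul_of_one_le_of_one_le (h.F1 _) ih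

theorem stp_prod_le (h : LocW k F G A L) (s : Finset ℕ) (x : ℕ → ℕ) :
    ∏ i ∈ s, F (sh i x) ≤ A ^ s.card := by
  rw [← prod_const]
  exact prod_le_prod (fun i _ => zero_le_one.trans (h.F1 _)) (fun i _ => h.FA _)

/-- The kink moves from `j + 1` to `j`. -/
theorem pk_step (h : LocW k F G A L) (M j : ℕ) (hM : j + k + 1 ≤ M) (w : Perm ℕ) :
    Pk k F G M j w + (if w j < w (j + 1) then Pk k F G M j (w * sj j) else 0) ≤
      L * Pk k F G M (j + 1) w := by
  have hk := h.hk
  obtain ⟨x, hx⟩ : ∃ x, x = ext k w := ⟨_, rfl⟩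
  obtain ⟨y, hy⟩ : ∃ y, y = sh j x := ⟨_, rfl⟩
  obtain ⟨P, hP⟩ : ∃ P, P = ∏ i ∈ range j, F (sh i x) := ⟨_, rfl⟩
  obtain ⟨Q, hQ⟩ : ∃ Q, Q = ∏ i ∈ Ico (j + k + 1) M, F (sh i x) := ⟨_, rfl⟩
  have hyin : Function.Injective y := by
    intro a b hab
    rw [hy, hx] at hab
    have := ext_inj k w hab
    omega
  have hyk1 : y (k - 1) = w j + (k - 1) := by
    rw [hy, hx]
    unfold sh ext
    rw [if_neg (by omega), show k - 1 + j - (k - 1) = j by omega]
  have hyk : y k = w (j + 1) + (k - 1) := by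
    rw [hy, hx]
    unfold sh ext
    rw [if_neg (by omega), show k + j - (k - 1) = j + 1 by omega]
  have e0 : Pk k F G M j w = P * G y * (F (sh k y) * Q) := by
    unfold Pk
    rw [← hx, prod_eq_prod_Ico_succ_bot (show j + k < M by omega), ← hP, ← hQ, hy, sh_sh]
  have e2 : Pk k F G M (j + 1) w = P * F y * G (sh 1 y) * Q := by
    unfold Pk
    rw [← hx, prod_range_succ, ← hP, hy, sh_sh, hQ, show j + 1 + k = j + k + 1 by omega]
  have e1 : Pk k F G M j (w * sj j) = P * G (sw k y) * (F (sh k (sw k y)) * Q) := by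
    unfold Pk
    have a1 : sh j (ext k (w * sj j)) = sw k y := by rw [ext_sj hk, hy, hx]
    have a2 : ∏ i ∈ range j, F (sh i (ext k (w * sj j))) = P := by
      rw [hP, hx]
      apply prod_congr rfl
      intro i hi
      rw [mem_range] at hi
      apply h.locF
      intro t ht
      exact ext_sj_ne hk j w (t + i) (by omega) (by omega)
    have a3 : ∏ i ∈ Ico (j + k + 1) M, F (sh i (ext k (w * sj j))) = Q := by
      rw [hQ, hx]
      apply prod_congr rfl
      intro i hi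
      rw [mem_Ico] at hi
      apply h.locF
      intro t ht
      exact ext_sj_ne hk j w (t + i) (by omega) (by omega)
    have a4 : sh (j + k) (ext k (w * sj j)) = sh k (sw k y) := by
      rw [← a1, sh_sh]
    rw [prod_eq_prod_Ico_succ_bot (show j + k < M by omega), a2, a3, a1, a4]
  have hP0 : 0 ≤ P := by rw [hP]; exact stp_prod_nonneg h _ _
  have hQ0 : 0 ≤ Q := by rw [hQ]; exact stp_prod_nonneg h _ _
  have key := mul_le_mul_of_nonneg_left (h.ineq y hyin) (mul_nonneg hP0 hQ0)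
  rw [e0, e1, e2]
  by_cases hc : w j < w (j + 1)
  · have hc' : y (k - 1) < y k := by omega
    rw [if_pos hc] 
    rw [if_pos hc'] at key
    calc P * G y * (F (sh k y) * Q) + P * G (sw k y) * (F (sh k (sw k y)) * Q)
        = P * Q * (G y * F (sh k y) + G (sw k y) * F (sh k (sw k y))) := by ring
      _ ≤ P * Q * (L * (F y * G (sh 1 y))) := key
      _ = L * (P * F y * G (sh 1 y) * Q) := by ring
  · have hc' : ¬ y (k - 1) < y k := by omega
    rw [if_neg hc]
    rw [if_neg hc'] at key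
    calc P * G y * (F (sh k y) * Q) + 0
        = P * Q * (G y * F (sh k y) + 0) := by ring
      _ ≤ P * Q * (L * (F y * G (sh 1 y))) := key
      _ = L * (P * F y * G (sh 1 y) * Q) := by ring

theorem ph_split (k : ℕ) (F : (ℕ → ℕ) → ℚ) (M a : ℕ) (hM : a + k ≤ M) (w : Perm ℕ) :
    Ph k F M w = (∏ i ∈ range a, F (sh i (ext k w))) * (∏ i ∈ Ico a (a + k), F (sh i (ext k w))) *
      ∏ i ∈ Ico (a + k) M, F (sh i (ext k w)) := by
  unfold Ph
  rw [mul_assoc, prod_Ico_consecutive _ (by omega) hM, range_eq_Ico, range_eq_Ico,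
    prod_Ico_consecutive _ (by omega) (by omega)]

/-- start of a row: drop the `k` factors `F ≥ 1`, and `G ≤ A` -/
theorem pk_le_ph (h : LocW k F G A L) (M a : ℕ) (hM : a + k ≤ M) (w : Perm ℕ) :
    Pk k F G M a w ≤ A * Ph k F M w := by
  rw [ph_split k F M a hM w]
  unfold Pk
  have h1 := stp_prod_nonneg h (range a) (ext k w)
  have h2 := stp_prod_one_le h (Ico a (a + k)) (ext k w)
  have h3 := stp_prod_nonneg h (Ico (a + k) M) (ext k w)
  have h4 := h.GA (sh a (ext k w))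
  have h5 := h.G1 (sh a (ext k w))
  obtain ⟨P, hP⟩ : ∃ P, P = ∏ i ∈ range a, F (sh i (ext k w)) := ⟨_, rfl⟩
  obtain ⟨R, hR⟩ : ∃ R, R = ∏ i ∈ Ico a (a + k), F (sh i (ext k w)) := ⟨_, rfl⟩
  obtain ⟨Q, hQ⟩ : ∃ Q, Q = ∏ i ∈ Ico (a + k) M, F (sh i (ext k w)) := ⟨_, rfl⟩
  rw [← hP] at h1 ⊢
  rw [← hR] at h2 ⊢
  rw [← hQ] at h3 ⊢
  have hA : 0 ≤ A := zero_le_one.trans (h5.trans h4)
  calc P * G (sh a (ext k w)) * Q ≤ P * A * Q :=
        mul_le_mul_of_nonneg_right (mul_le_mul_of_nonneg_left h4 h1) h3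
    _ = A * (P * 1 * Q) := by ring
    _ ≤ A * (P * R * Q) :=
        mul_le_mul_of_nonneg_left (mul_le_mul_of_nonneg_right (mul_le_mul_of_nonneg_left h2 h1) h3) hA

/-- end of a row: `k` factors `F ≤ A`, and `G ≥ 1` -/
theorem ph_le_pk (h : LocW k F G A L) (M a : ℕ) (hM : a + k ≤ M) (w : Perm ℕ) :
    Ph k F M w ≤ A ^ k * Pk k F G M a w := by
  rw [ph_split k F M a hM w]
  unfold Pk
  have h1 := stp_prod_nonneg h (range a) (ext k w)
  have h2 := stp_prod_le h (Ico a (a + k)) (ext k w)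
  have h3 := stp_prod_nonneg h (Ico (a + k) M) (ext k w)
  have h4 := h.GA (sh a (ext k w))
  have h5 := h.G1 (sh a (ext k w))
  rw [Nat.card_Ico, Nat.add_sub_cancel_left] at h2
  obtain ⟨P, hP⟩ : ∃ P, P = ∏ i ∈ range a, F (sh i (ext k w)) := ⟨_, rfl⟩
  obtain ⟨R, hR⟩ : ∃ R, R = ∏ i ∈ Ico a (a + k), F (sh i (ext k w)) := ⟨_, rfl⟩
  obtain ⟨Q, hQ⟩ : ∃ Q, Q = ∏ i ∈ Ico (a + k) M, F (sh i (ext k w)) := ⟨_, rfl⟩
  rw [← hP] at h1 ⊢
  rw [← hR] at h2 ⊢
  rw [← hQ] at h3 ⊢
  have hA : 0 ≤ A := zero_le_one.trans (h5.trans h4)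
  calc P * R * Q ≤ P * A ^ k * Q :=
        mul_le_mul_of_nonneg_right (mul_le_mul_of_nonneg_left h2 h1) h3
    _ = A ^ k * (P * 1 * Q) := by ring
    _ ≤ A ^ k * (P * G (sh a (ext k w)) * Q) :=
        mul_le_mul_of_nonneg_left (mul_le_mul_of_nonneg_right (mul_le_mul_of_nonneg_left h5 h1) h3)
          (pow_nonneg hA k)

/-- bounds -/
theorem ph_bounds (h : LocW k F G A L) (M : ℕ) (w : Perm ℕ) :
    1 ≤ Ph k F M w ∧ Ph k F M w ≤ A ^ M := by
  unfold Ph
  refine ⟨stp_prod_one_le h _ _, ?_⟩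
  have := stp_prod_le h (range M) (ext k w)
  rwa [card_range] at this

end Pool.Agent.helper54.Upb
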