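import Pool.Agent.helper54.Upb.Sum
import Pool.Agent.helper54.Upb.Step

/-!
# Upper bound: rows and triangle
-/

set_option autoImplicit false
open Finset Equiv Pool.Agent.helper54.Schub

namespace Pool.Agent.helper54.Upb

variable {k : ℕ} {F G : (ℕ → ℕ) → ℚ} {A L : ℚ}

private lemma asm_A1 (h : LocW k F G A L) : 1 ≤ A :=
  (h.F1 (fun _ => 0)).trans (h.FA (fun _ => 0))

/-- A row.  Induction on `l` (`dn (l + 1) p = dn l (p + 1) * fac p`, so the factor `fac p` comes last):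
`zs_step` with `j = p`, `φ = Pk (p + 1)`, `ψ = Pk p`. -/
theorem zs_row (h : LocW k F G A L) (n M : ℕ) (hM : n + k ≤ M) (l : ℕ) : ∀ (p : ℕ), p + l < n →
    ∀ H : Module.End ℚ (Perm ℕ → ℚ), RC H → NN H →
      Zs n (Pk k F G M p) (H * dn (lam ℚ) (1 : ℚ) l p) ≤
        L ^ l * Zs n (Pk k F G M (p + l)) H := by
  induction l with
  | zero =>
    intro p _ H _ _
    rw [dn, mul_one, pow_zero, one_mul, add_zero]
  | succ l ih =>
    intro p hp H hR hN
    have hL : (0 : ℚ) ≤ L := zero_le_one.trans h.hL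
    have e : H * dn (lam ℚ) (1 : ℚ) (l + 1) p =
        (H * dn (lam ℚ) (1 : ℚ) l (p + 1)) * fac (lam ℚ) (1 : ℚ) p := by
      rw [dn, mul_assoc]
    rw [e]
    have h1 := zs_step n p (by omega) (Pk k F G M (p + 1)) (Pk k F G M p) L
      (H * dn (lam ℚ) (1 : ℚ) l (p + 1)) (rc_mul hR (rc_dn _ _ _)) (hN.mul (nn_dn _ _))
      (fun w _ => pk_step h M p (by omega) w)
    have h2 := ih (p + 1) (by omega) H hR hN
    have h3 := mul_le_mul_of_nonneg_left h2 hL
    refine h1.trans (h3.trans (le_of_eq ?_))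
    rw [show p + 1 + l = p + (l + 1) by omega, pow_succ]
    ring

/-- The triangle.  Induction on `l` (`sch (l + 1) p = dn (l + 1) p * sch l (p + 1)`): first the row
`dn (l + 1) p` with `pk_le_ph` before it and `ph_le_pk` after it (through `zs_mono`), which costs the
factor `A ^ (k + 1) * L ^ (l + 1)`, then the induction hypothesis for `H * dn (l + 1) p`. -/
theorem zs_sch (h : LocW k F G A L) (n M : ℕ) (hM : n + k ≤ M) (l : ℕ) : ∀ (p : ℕ), p + l < n →
    ∀ H : Module.End ℚ (Perm ℕ → ℚ), RC H → NN H →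
      Zs n (Ph k F M) (H * sch ℚ (lam ℚ) l p) ≤
        (A ^ (k + 1)) ^ l * L ^ (l * (l + 1) / 2) * Zs n (Ph k F M) H := by
  have hL : (0 : ℚ) ≤ L := zero_le_one.trans h.hL
  have hA : (0 : ℚ) ≤ A := zero_le_one.trans (asm_A1 h)
  induction l with
  | zero =>
    intro p _ H _ _
    rw [sch, mul_one, pow_zero, zero_mul, Nat.zero_div, pow_zero, one_mul, one_mul]
  | succ l ih =>
    intro p hp H hR hN
    have e : H * sch ℚ (lam ℚ) (l + 1) p =
        (H * dn (lam ℚ) (1 : ℚ) (l + 1) p) * sch ℚ (lam ℚ) l (p + 1) := by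
      rw [sch, mul_assoc]
    rw [e]
    have hR' : RC (H * dn (lam ℚ) (1 : ℚ) (l + 1) p) := rc_mul hR (rc_dn _ _ _)
    have hN' : NN (H * dn (lam ℚ) (1 : ℚ) (l + 1) p) := hN.mul (nn_dn _ _)
    have h1 := ih (p + 1) (by omega) _ hR' hN'
    have h2 : Zs n (Ph k F M) (H * dn (lam ℚ) (1 : ℚ) (l + 1) p) ≤
        A ^ k * Zs n (Pk k F G M p) (H * dn (lam ℚ) (1 : ℚ) (l + 1) p) :=
      zs_mono n _ _ _ _ hN' (fun w _ => ph_le_pk h M p (by omega) w)
    have h3 := zs_row h n M hM (l + 1) p hp H hR hN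
    have h4 : Zs n (Pk k F G M (p + (l + 1))) H ≤ A * Zs n (Ph k F M) H :=
      zs_mono n _ _ _ _ hN (fun w _ => pk_le_ph h M (p + (l + 1)) (by omega) w)
    have h5 : Zs n (Ph k F M) (H * dn (lam ℚ) (1 : ℚ) (l + 1) p) ≤
        A ^ k * (L ^ (l + 1) * (A * Zs n (Ph k F M) H)) :=
      h2.trans (mul_le_mul_of_nonneg_left
        (h3.trans (mul_le_mul_of_nonneg_left h4 (pow_nonneg hL _))) (pow_nonneg hA _))
    have h6 := mul_le_mul_of_nonneg_left h5
      (mul_nonneg (pow_nonneg (pow_nonneg hA (k + 1)) l) (pow_nonneg hL (l * (l + 1) / 2)))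
    refine h1.trans (h6.trans (le_of_eq ?_))
    have e2 : (l + 1) * (l + 1 + 1) / 2 = l * (l + 1) / 2 + (l + 1) := by
      rw [show (l + 1) * (l + 1 + 1) = l * (l + 1) + (l + 1) * 2 by ring,
        Nat.add_mul_div_right _ _ (by norm_num)]
    rw [e2, pow_add L, pow_succ (A ^ (k + 1)), pow_succ A k]
    ring

/-- **Upper bound for the values**: `val n w = cf w (sch (n - 1) 0)` (unfold `val`; see
`Schub/Lay.lean`), `cf_le_zs`, `zs_sch` with `H = 1`, `zs_one`, `ph_bounds`. -/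
theorem val_le (h : LocW k F G A L) (n : ℕ) (w : Perm ℕ) (hw : FA n w) :
    val n w ≤ A ^ ((k + 2) * n + k) * L ^ (n * (n - 1) / 2) := by
  have hL : (0 : ℚ) ≤ L := zero_le_one.trans h.hL
  have hA1 : (1 : ℚ) ≤ A := asm_A1 h
  have hA : (0 : ℚ) ≤ A := zero_le_one.trans hA1
  have h1 : val n w ≤ Zs n (Ph k F (n + k)) (sch ℚ (lam ℚ) (n - 1) 0) :=
    cf_le_zs n (Ph k F (n + k)) _ (nn_sch _ _) (fun v _ => (ph_bounds h (n + k) v).1) w hw
  have hb := (ph_bounds h (n + k) (1 : Perm ℕ)).2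
  rcases Nat.eq_zero_or_pos n with hn | hn
  · subst hn
    refine h1.trans ?_
    rw [Nat.zero_sub, sch, zs_one]
    refine hb.trans (le_of_eq ?_)
    rw [Nat.mul_zero, Nat.zero_add, Nat.zero_mul, Nat.zero_div, pow_zero, mul_one]
  · have h2 := zs_sch h n (n + k) le_rfl (n - 1) 0 (by omega) 1 rc_one NN.one
    rw [one_mul, zs_one] at h2
    refine h1.trans (h2.trans ?_)
    have e1 : (n - 1) * (n - 1 + 1) / 2 = n * (n - 1) / 2 := by
      rw [Nat.sub_add_cancel hn, Nat.mul_comm]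
    rw [e1]
    have h3 : (A ^ (k + 1)) ^ (n - 1) * L ^ (n * (n - 1) / 2) * Ph k F (n + k) 1 ≤
        (A ^ (k + 1)) ^ (n - 1) * L ^ (n * (n - 1) / 2) * A ^ (n + k) :=
      mul_le_mul_of_nonneg_left hb
        (mul_nonneg (pow_nonneg (pow_nonneg hA _) _) (pow_nonneg hL _))
    refine h3.trans ?_
    have e3 : (A ^ (k + 1)) ^ (n - 1) * L ^ (n * (n - 1) / 2) * A ^ (n + k) =
        A ^ ((k + 1) * (n - 1) + (n + k)) * L ^ (n * (n - 1) / 2) := by
      rw [pow_add A ((k + 1) * (n - 1)), pow_mul A (k + 1)]; ring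
    rw [e3]
    refine mul_le_mul_of_nonneg_right (pow_le_pow_right₀ hA1 ?_) (pow_nonneg hL _)
    obtain ⟨m, rfl⟩ : ∃ m, n = m + 1 := ⟨n - 1, by omega⟩
    rw [Nat.add_sub_cancel]
    nlinarith

end Pool.Agent.helper54.Upb
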