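import Pool.Agent.helper54.Upb.Tab5

/-!
# The large certificate: weights and check
-/

set_option autoImplicit false

namespace Pool.Agent.helper54.Upb.Five

/-- a Boolean as a number -/
def bn (b : Bool) : ℕ := cond b 1 0

/-- both values -/
def ab (f : Bool → Bool) : Bool := cond (f true) (f false) false

/-- implication -/
def im (c x : Bool) : Bool := cond c x true

/-- transitivity of the comparisons of three letters -/
def tr (a b c : Bool) : Bool := cond a (cond b c true) (cond b true (cond c false true))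

/-- evaluate the number first -/
def wn (n : ℕ) (k : ℕ → Bool) : Bool := Nat.rec (k 0) (fun m _ => k (Nat.succ m)) n

/-- the block number `r` of width `w` in `n`, with `M = 2 ^ w` -/
def ex (w M n r : ℕ) : ℕ := Nat.mod (Nat.shiftRight n (Nat.mul w r)) M

/-- `2 ^ 2500` -/
def m25 : ℕ := Nat.pow 2 2500
/-- `2 ^ 500` -/
def m5 : ℕ := Nat.pow 2 500
/-- `2 ^ 100` -/
def m1 : ℕ := Nat.pow 2 100
/-- `2 ^ 60` -/
def m6 : ℕ := Nat.pow 2 60

/-- weight of five letters -/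
def Fw (b01 b12 b02 b23 b13 b03 b34 b24 b14 b04 : Bool) : ℕ :=
  Nat.add (ex 12 4096 (ex 60 m6 FB (Nat.add (Nat.mul (Nat.add (Nat.mul (bn b01) 3) (Nat.add (bn b12) (bn b02))) 4) (Nat.add (bn b23) (Nat.add (bn b13) (bn b03)))))
    (Nat.add (bn b34) (Nat.add (bn b24) (Nat.add (bn b14) (bn b04))))) 1

/-- weight of nine letters, from the comparisons at distance at most four -/
def Gw (b01 b12 b02 b23 b13 b03 b34 b24 b14 b04 b45 b35 b25 b15 b56 b46 b36 b26 b67 b57 b47 b37 b78 b68 b58 b48 : Bool) : ℕ :=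
  Nat.add (ex 20 1048576 (ex 100 m1 (ex 500 m5 (ex 2500 m25
    (((((((((((GT.dn b01).dn b12).dn b02).dn b23).dn b13).dn b03).dn b34).dn b24).dn b14).dn b04)).vl
    (Nat.add (bn b45) (Nat.add (bn b35) (Nat.add (bn b25) (bn b15)))))
    (Nat.add (bn b56) (Nat.add (bn b46) (Nat.add (bn b36) (bn b26)))))
    (Nat.add (bn b67) (Nat.add (bn b57) (Nat.add (bn b47) (bn b37)))))
    (Nat.add (bn b78) (Nat.add (bn b68) (Nat.add (bn b58) (bn b48))))) 1

/-- the local inequality -/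
def leaf (b01 b12 b02 b23 b13 b03 b34 b24 b14 b04 b45 b35 b25 b15 b56 b46 b36 b26 b67 b57 b47 b37 b78 b68 b58 b48 b89 b79 b69 b59 b05 b49 : Bool) : Bool :=
  cond b45
    (Nat.ble (Nat.add
      (Nat.mul (Nat.mul 1000 (Gw b01 b12 b02 b23 b13 b03 b34 b24 b14 b04 b45 b35 b25 b15 b56 b46 b36 b26 b67 b57 b47 b37 b78 b68 b58 b48)) (Fw b56 b67 b57 b78 b68 b58 b89 b79 b69 b59))
      (Nat.mul (Nat.mul 1000 (Gw b01 b12 b02 b23 b13 b03 b35 b25 b15 b05 false b34 b24 b14 b46 b56 b36 b26 b67 b47 b57 b37 b78 b68 b48 b58)) (Fw b46 b67 b47 b78 b68 b48 b89 b79 b69 b49)))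
      (Nat.mul (Nat.mul 1639 (Fw b01 b12 b02 b23 b13 b03 b34 b24 b14 b04)) (Gw b12 b23 b13 b34 b24 b14 b45 b35 b25 b15 b56 b46 b36 b26 b67 b57 b47 b37 b78 b68 b58 b48 b89 b79 b69 b59)))
    (Nat.ble
      (Nat.mul (Nat.mul 1000 (Gw b01 b12 b02 b23 b13 b03 b34 b24 b14 b04 b45 b35 b25 b15 b56 b46 b36 b26 b67 b57 b47 b37 b78 b68 b58 b48)) (Fw b56 b67 b57 b78 b68 b58 b89 b79 b69 b59))
      (Nat.mul (Nat.mul 1639 (Fw b01 b12 b02 b23 b13 b03 b34 b24 b14 b04)) (Gw b12 b23 b13 b34 b24 b14 b45 b35 b25 b15 b56 b46 b36 b26 b67 b57 b47 b37 b78 b68 b58 b48 b89 b79 b69 b59)))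

/-- the enumeration after six letters, ascent case -/
def chkA (b01 b12 b02 b23 b13 b03 b34 b24 b14 b04 b45 b35 b25 b15 : Bool) (c0 g1 h0 : ℕ) : Bool :=
  ab fun b05 => im (tr b01 b15 b05) <| im (tr b02 b25 b05) <| im (tr b03 b35 b05) <| im (tr b04 b45 b05) <|
  wn (ex 2500 m25 (((((((((((GT.dn b01).dn b12).dn b02).dn b23).dn b13).dn b03).dn b35).dn b25).dn b15).dn b05)).vl (Nat.add (bn false) (Nat.add (bn b34) (Nat.add (bn b24) (bn b14))))) fun e1 =>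
  ab fun b56 => 
  ab fun b46 => im (tr b45 b56 b46) <|
  ab fun b36 => im (tr b34 b46 b36) <| im (tr b35 b56 b36) <|
  ab fun b26 => im (tr b23 b36 b26) <| im (tr b24 b46 b26) <| im (tr b25 b56 b26) <|
  wn (Nat.add (bn b56) (Nat.add (bn b46) (Nat.add (bn b36) (bn b26)))) fun r6 =>
  wn (ex 500 m5 g1 r6) fun g2 => wn (ex 500 m5 e1 r6) fun e2 => wn (ex 2500 m25 h0 r6) fun h1 =>
  ab fun b67 => 
  ab fun b57 => im (tr b56 b67 b57) <|
  ab fun b47 => im (tr b45 b57 b47) <| im (tr b46 b67 b47) <|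
  ab fun b37 => im (tr b34 b47 b37) <| im (tr b35 b57 b37) <| im (tr b36 b67 b37) <|
  wn (Nat.add (bn b67) (Nat.add (bn b57) (Nat.add (bn b47) (bn b37)))) fun r7 =>
  wn (ex 100 m1 g2 r7) fun g3 => wn (ex 100 m1 e2 r7) fun e3 => wn (ex 500 m5 h1 r7) fun h2 =>
  ab fun b78 => 
  ab fun b68 => im (tr b67 b78 b68) <|
  ab fun b58 => im (tr b56 b68 b58) <| im (tr b57 b78 b58) <|
  ab fun b48 => im (tr b45 b58 b48) <| im (tr b46 b68 b48) <| im (tr b47 b78 b48) <|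
  wn (Nat.add (bn b78) (Nat.add (bn b68) (Nat.add (bn b58) (bn b48)))) fun r8 =>
  wn (Nat.mul 1000 (Nat.add (ex 20 1048576 g3 r8) 1)) fun g4 =>
  wn (Nat.mul 1000 (Nat.add (ex 20 1048576 e3 r8) 1)) fun e4 => wn (ex 100 m1 h2 r8) fun h3 =>
  wn (ex 60 m6 FB (Nat.add (Nat.mul (Nat.add (Nat.mul (bn b56) 3) (Nat.add (bn b67) (bn b57))) 4) (Nat.add (bn b78) (Nat.add (bn b68) (bn b58))))) fun f1 =>
  wn (ex 60 m6 FB (Nat.add (Nat.mul (Nat.add (Nat.mul (bn b46) 3) (Nat.add (bn b67) (bn b47))) 4) (Nat.add (bn b78) (Nat.add (bn b68) (bn b48))))) fun f2 =>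
  ab fun b89 => 
  ab fun b79 => im (tr b78 b89 b79) <|
  ab fun b69 => im (tr b67 b79 b69) <| im (tr b68 b89 b69) <|
  ab fun b59 => im (tr b56 b69 b59) <| im (tr b57 b79 b59) <| im (tr b58 b89 b59) <|
  ab fun b49 => im (tr b45 b59 b49) <| im (tr b46 b69 b49) <| im (tr b47 b79 b49) <| im (tr b48 b89 b49) <|
  Nat.ble (Nat.add
    (Nat.mul g4 (Nat.add (ex 12 4096 f1 (Nat.add (bn b89) (Nat.add (bn b79) (Nat.add (bn b69) (bn b59))))) 1))
    (Nat.mul e4 (Nat.add (ex 12 4096 f2 (Nat.add (bn b89) (Nat.add (bn b79) (Nat.add (bn b69) (bn b49))))) 1)))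
    (Nat.mul c0 (Nat.add (ex 20 1048576 h3 (Nat.add (bn b89) (Nat.add (bn b79) (Nat.add (bn b69) (bn b59))))) 1))

/-- the enumeration after six letters, descent case -/
def chkD (b01 b12 b02 b23 b13 b03 b34 b24 b14 b04 b45 b35 b25 b15 : Bool) (c0 g1 h0 : ℕ) : Bool :=
  ab fun b56 => 
  ab fun b46 => im (tr b45 b56 b46) <|
  ab fun b36 => im (tr b34 b46 b36) <| im (tr b35 b56 b36) <|
  ab fun b26 => im (tr b23 b36 b26) <| im (tr b24 b46 b26) <| im (tr b25 b56 b26) <|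
  wn (Nat.add (bn b56) (Nat.add (bn b46) (Nat.add (bn b36) (bn b26)))) fun r6 =>
  wn (ex 500 m5 g1 r6) fun g2 => wn (ex 2500 m25 h0 r6) fun h1 =>
  ab fun b67 => 
  ab fun b57 => im (tr b56 b67 b57) <|
  ab fun b47 => im (tr b45 b57 b47) <| im (tr b46 b67 b47) <|
  ab fun b37 => im (tr b34 b47 b37) <| im (tr b35 b57 b37) <| im (tr b36 b67 b37) <|
  wn (Nat.add (bn b67) (Nat.add (bn b57) (Nat.add (bn b47) (bn b37)))) fun r7 =>
  wn (ex 100 m1 g2 r7) fun g3 => wn (ex 500 m5 h1 r7) fun h2 =>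
  ab fun b78 => 
  ab fun b68 => im (tr b67 b78 b68) <|
  ab fun b58 => im (tr b56 b68 b58) <| im (tr b57 b78 b58) <|
  ab fun b48 => im (tr b45 b58 b48) <| im (tr b46 b68 b48) <| im (tr b47 b78 b48) <|
  wn (Nat.add (bn b78) (Nat.add (bn b68) (Nat.add (bn b58) (bn b48)))) fun r8 =>
  wn (Nat.mul 1000 (Nat.add (ex 20 1048576 g3 r8) 1)) fun g4 => wn (ex 100 m1 h2 r8) fun h3 =>
  wn (ex 60 m6 FB (Nat.add (Nat.mul (Nat.add (Nat.mul (bn b56) 3) (Nat.add (bn b67) (bn b57))) 4) (Nat.add (bn b78) (Nat.add (bn b68) (bn b58))))) fun f1 =>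
  ab fun b89 => 
  ab fun b79 => im (tr b78 b89 b79) <|
  ab fun b69 => im (tr b67 b79 b69) <| im (tr b68 b89 b69) <|
  ab fun b59 => im (tr b56 b69 b59) <| im (tr b57 b79 b59) <| im (tr b58 b89 b59) <|
  Nat.ble
    (Nat.mul g4 (Nat.add (ex 12 4096 f1 (Nat.add (bn b89) (Nat.add (bn b79) (Nat.add (bn b69) (bn b59))))) 1))
    (Nat.mul c0 (Nat.add (ex 20 1048576 h3 (Nat.add (bn b89) (Nat.add (bn b79) (Nat.add (bn b69) (bn b59))))) 1))

/-- the enumeration, for given comparisons of the first five letters -/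
def chk (b01 b12 b02 b23 b13 b03 b34 b24 b14 b04 : Bool) : Bool :=
  wn (Nat.mul 1639 (Fw b01 b12 b02 b23 b13 b03 b34 b24 b14 b04)) fun c0 =>
  wn (((((((((((GT.dn b01).dn b12).dn b02).dn b23).dn b13).dn b03).dn b34).dn b24).dn b14).dn b04)).vl fun g0 =>
  ab fun b45 => 
  ab fun b35 => im (tr b34 b45 b35) <|
  ab fun b25 => im (tr b23 b35 b25) <| im (tr b24 b45 b25) <|
  ab fun b15 => im (tr b12 b25 b15) <| im (tr b13 b35 b15) <| im (tr b14 b45 b15) <|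
  wn (ex 2500 m25 g0 (Nat.add (bn b45) (Nat.add (bn b35) (Nat.add (bn b25) (bn b15))))) fun g1 =>
  wn (((((((((((GT.dn b12).dn b23).dn b13).dn b34).dn b24).dn b14).dn b45).dn b35).dn b25).dn b15)).vl fun h0 =>
  cond b45 (chkA b01 b12 b02 b23 b13 b03 b34 b24 b14 b04 b45 b35 b25 b15 c0 g1 h0) (chkD b01 b12 b02 b23 b13 b03 b34 b24 b14 b04 b45 b35 b25 b15 c0 g1 h0)

end Pool.Agent.helper54.Upb.Five
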