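import Pool.Agent.helper54.Upb.Cert5

/-!
# The large certificate: kernel check, part 1
-/

set_option autoImplicit false

namespace Pool.Agent.helper54.Upb.Five

theorem c0 : chk true true true true true true true true true true = true := by decide +kernel
theorem c1 : chk true true true true true true false true true true = true := by decide +kernel
theorem c2 : chk true true true true true true false false true true = true := by decide +kernel
theorem c3 : chk true true true true true true false false false true = true := by decide +kernel
theorem c4 : chk true true true true true true false false false false = true := by decide +kernel
theorem c5 : chk true true true false true true true true true true = true := by decide +kernel
theorem c6 : chk true true true false true true true false true true = true := by decide +kernel
theorem c7 : chk true true true false true true false false true true = true := by decide +kernel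
theorem c8 : chk true true true false true true false false false true = true := by decide +kernel
theorem c9 : chk true true true false true true false false false false = true := by decide +kernel
theorem c10 : chk true true true false false true true true true true = true := by decide +kernel
theorem c11 : chk true true true false false true true false true true = true := by decide +kernel
theorem c12 : chk true true true false false true true false false true = true := by decide +kernel
theorem c13 : chk true true true false false true false false false true = true := by decide +kernel
theorem c14 : chk true true true false false true false false false false = true := by decide +kernel

end Pool.Agent.helper54.Upb.Five
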