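import Pool.Agent.helper54.Upb.Asm

/-!
# Upper bound: the statement for Schubert polynomials
-/

set_option autoImplicit false
open Finset Equiv Pool.Agent.helper54.Schub

namespace Pool.Agent.helper54.Upb

variable {k : ℕ} {F G : (ℕ → ℕ) → ℚ} {A L : ℚ}

/-- from values to Schubert polynomials: `nu_eq_val`, `fa_iot` -/
theorem nu_le (h : LocW k F G A L) (n : ℕ) (S : Perm (Fin n) → MvPolynomial (Fin n) ℤ)
    (hS : IsSchubert n S) (w : Perm (Fin n)) :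
    ((nu S w : ℤ) : ℚ) ≤ A ^ ((k + 2) * n + k) * L ^ (n * (n - 1) / 2) := by
  rw [nu_eq_val hS w]
  exact val_le h n (iot w) (fa_iot w)

/-- the factor `A ^ ((k + 2) n + k)` is absorbed for all large `n` -/
private theorem finU_absorb (k K N : ℕ) (hN : 1 ≤ N) (A L : ℝ) (hA : 1 ≤ A) (hL : 1 ≤ L)
    (hLK : L ^ N < 2 ^ K) :
    ∃ n₀ : ℕ, ∀ n : ℕ, n₀ ≤ n →
      A ^ ((k + 2) * n + k) * L ^ (n * (n - 1) / 2) ≤
        (2 : ℝ) ^ ((K : ℝ) / (2 * N) * (n : ℝ) ^ 2) := by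
  have hA0 : 0 < A := lt_of_lt_of_le one_pos hA
  have hL0 : 0 < L := lt_of_lt_of_le one_pos hL
  have hN0 : (0 : ℝ) < (N : ℝ) := by
    have : 0 < N := by omega
    exact_mod_cast this
  obtain ⟨a, ha⟩ : ∃ a, a = Real.log A := ⟨_, rfl⟩
  obtain ⟨l, hl⟩ : ∃ l, l = Real.log L := ⟨_, rfl⟩
  have ha0 : 0 ≤ a := by
    rw [ha]
    exact Real.log_nonneg hA
  have hlt : (N : ℝ) * l < (K : ℝ) * Real.log 2 := by
    have h1 := Real.log_lt_log (pow_pos hL0 N) hLK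
    rw [Real.log_pow, Real.log_pow, ← hl] at h1
    exact h1
  obtain ⟨δ, hδ⟩ : ∃ δ, δ = (K : ℝ) * Real.log 2 / N - l := ⟨_, rfl⟩
  have hδ0 : 0 < δ := by
    rw [hδ, sub_pos, lt_div_iff₀ hN0]
    linarith
  obtain ⟨n₁, hn₁⟩ := exists_nat_ge (2 * (2 * (k : ℝ) + 2) * a / δ)
  refine ⟨max n₁ 1, fun n hn => ?_⟩
  have hn1 : (n₁ : ℝ) ≤ (n : ℝ) := by
    have : n₁ ≤ n := (le_max_left _ _).trans hn
    exact_mod_cast this
  have hn2 : (1 : ℝ) ≤ (n : ℝ) := by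
    have : 1 ≤ n := (le_max_right _ _).trans hn
    exact_mod_cast this
  have h1 : 2 * (2 * (k : ℝ) + 2) * a ≤ (n : ℝ) * δ := by
    have h2 := hn₁.trans hn1
    rwa [div_le_iff₀ hδ0] at h2
  have hj : ((n * (n - 1) / 2 : ℕ) : ℝ) ≤ (n : ℝ) ^ 2 / 2 := by
    have h2 : n * (n - 1) / 2 * 2 ≤ n ^ 2 := by
      refine (Nat.div_mul_le_self _ _).trans ?_
      rw [sq]
      exact Nat.mul_le_mul_left _ (Nat.sub_le _ _)
    have h3 : ((n * (n - 1) / 2 : ℕ) : ℝ) * 2 ≤ (n : ℝ) ^ 2 := by exact_mod_cast h2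
    linarith
  have hl0 : 0 ≤ l := by
    rw [hl]
    exact Real.log_nonneg hL
  have hX : 0 < A ^ ((k + 2) * n + k) * L ^ (n * (n - 1) / 2) :=
    mul_pos (pow_pos hA0 _) (pow_pos hL0 _)
  have hY : (0 : ℝ) < (2 : ℝ) ^ ((K : ℝ) / (2 * N) * (n : ℝ) ^ 2) :=
    Real.rpow_pos_of_pos two_pos _
  rw [← Real.log_le_log_iff hX hY, Real.log_rpow two_pos,
    Real.log_mul (pow_pos hA0 _).ne' (pow_pos hL0 _).ne', Real.log_pow, Real.log_pow, ← ha, ← hl]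
  have h4 : (((k + 2) * n + k : ℕ) : ℝ) * a ≤ (2 * (k : ℝ) + 2) * (n : ℝ) * a := by
    refine mul_le_mul_of_nonneg_right ?_ ha0
    push_cast
    have h5 : (0 : ℝ) ≤ (k : ℝ) := Nat.cast_nonneg _
    nlinarith [mul_nonneg h5 (sub_nonneg.2 hn2)]
  have h6 : ((n * (n - 1) / 2 : ℕ) : ℝ) * l ≤ (n : ℝ) ^ 2 / 2 * l :=
    mul_le_mul_of_nonneg_right hj hl0
  have h7 : (K : ℝ) / (2 * N) * (n : ℝ) ^ 2 * Real.log 2 =
      (n : ℝ) ^ 2 / 2 * l + (n : ℝ) ^ 2 / 2 * δ := by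
    rw [hδ]
    field_simp
    ring
  have h8 : (2 * (k : ℝ) + 2) * (n : ℝ) * a ≤ (n : ℝ) ^ 2 / 2 * δ := by
    have h9 : 0 ≤ (n : ℝ) := by linarith
    have h10 := mul_le_mul_of_nonneg_left h1 h9
    nlinarith
  rw [h7]
  linarith

/-- Absorbing the subexponential factor: if `L ^ N < 2 ^ K` (that is `log₂ L < K / N`) then for all
large `n` every value is at most `2 ^ (K n² / (2 N))`.  (The factor `A ^ ((k + 2) n + k)` is at most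
`2 ^ (c n + c)`, and `L = 2 ^ (K / N - δ)` with some `δ > 0`.) -/
theorem nu_le_two_pow (h : LocW k F G A L) (K N : ℕ) (hN : 1 ≤ N) (hL : L ^ N < 2 ^ K) :
    ∃ n₀ : ℕ, ∀ n : ℕ, n₀ ≤ n → ∀ S : Perm (Fin n) → MvPolynomial (Fin n) ℤ, IsSchubert n S →
      ∀ w : Perm (Fin n), ((nu S w : ℤ) : ℝ) ≤ (2 : ℝ) ^ ((K : ℝ) / (2 * N) * (n : ℝ) ^ 2) := by
  have hA1 : (1 : ℚ) ≤ A := (h.F1 (fun _ => 0)).trans (h.FA _)
  have hL' : (L : ℝ) ^ N < 2 ^ K := by exact_mod_cast hL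
  obtain ⟨n₀, hn₀⟩ := finU_absorb k K N hN (A : ℝ) (L : ℝ) (by exact_mod_cast hA1)
    (by exact_mod_cast h.hL) hL'
  refine ⟨n₀, fun n hn S hS w => le_trans ?_ (hn₀ n hn)⟩
  have h1 := nu_le h n S hS w
  exact_mod_cast h1

end Pool.Agent.helper54.Upb
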