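import Pool.Agent.helper54.Upb.UDefs

/-!
# Upper bound: one factor in the weighted sum
-/

set_option autoImplicit false
open Finset Equiv Pool.Agent.helper54.Schub

namespace Pool.Agent.helper54.Upb

theorem cf_nonneg_of_nn {H : Module.End ℚ (Perm ℕ → ℚ)} (hH : NN H) (w : Perm ℕ) : 0 ≤ cf w H := by
  refine hH (del ℚ) (fun v => ?_) w
  unfold del
  split_ifs
  · exact zero_le_one
  · exact le_refl _

/-- coefficients after one more factor -/
theorem cf_mul_facOne {H : Module.End ℚ (Perm ℕ → ℚ)} (hR : RC H) (w : Perm ℕ) (j : ℕ) :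
    cf w (H * fac (lam ℚ) (1 : ℚ) j) =
      cf w H + if w (j + 1) < w j then cf (w * sj j) H else 0 := by
  unfold fac
  rw [mul_add, mul_one, one_smul, cf_add, cf_mul_lam hR]

/-- One factor `1 + u_j` multiplies the weighted sum by at most `L`, when the new weight `ψ` and the
old weight `φ` satisfy the pointwise inequality.  Proof: `cf_mul_lam` and `cf_add` give
`cf w (H * fac j) = cf w H + (if w (j+1) < w j then cf (w * sj j) H else 0)` (`fac` with `1 • u_j`),
`cf w H ≥ 0` by `hH` (apply it to `del ℚ`), and the sum over `v` of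
`ψ (iot v) * (if .. then cf (iot v * sj j) H else 0)` is reindexed by `v ↦ v * swap j (j+1)`
(`iot_mul_swap`). -/
theorem zs_step (n j : ℕ) (hj : j + 1 < n) (φ ψ : Perm ℕ → ℚ) (L : ℚ)
    (H : Module.End ℚ (Perm ℕ → ℚ)) (hR : RC H) (hH : NN H)
    (h : ∀ w : Perm ℕ, FA n w →
      ψ w + (if w j < w (j + 1) then ψ (w * sj j) else 0) ≤ L * φ w) :
    Zs n ψ (H * fac (lam ℚ) (1 : ℚ) j) ≤ L * Zs n φ H := by
  have hj' : j < n := by omega
  have hs : ∀ v : Perm (Fin n), iot (v * swap (⟨j, hj'⟩ : Fin n) ⟨j + 1, hj⟩) = iot v * sj j :=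
    fun v => iot_mul_swap v (i := ⟨j, hj'⟩) (j := ⟨j + 1, hj⟩) rfl
  have e1 : Zs n ψ (H * fac (lam ℚ) (1 : ℚ) j) =
      ∑ v : Perm (Fin n), (ψ (iot v) +
        (if iot v j < iot v (j + 1) then ψ (iot v * sj j) else 0)) * cf (iot v) H := by
    have e2 : ∑ v : Perm (Fin n),
        ψ (iot v) * (if iot v (j + 1) < iot v j then cf (iot v * sj j) H else 0) =
        ∑ v : Perm (Fin n),
          (if iot v j < iot v (j + 1) then ψ (iot v * sj j) else 0) * cf (iot v) H := by
      rw [← Equiv.sum_comp (Equiv.mulRight (swap (⟨j, hj'⟩ : Fin n) ⟨j + 1, hj⟩))]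
      refine Finset.sum_congr rfl fun v _ => ?_
      rw [Equiv.coe_mulRight, hs, mul_sj_cancel, Perm.mul_apply, Perm.mul_apply, sj_right, sj_left]
      split_ifs
      · rfl
      · rw [mul_zero, zero_mul]
    unfold Zs
    simp only [cf_mul_facOne hR, mul_add, add_mul, Finset.sum_add_distrib]
    rw [e2]
  rw [e1]
  unfold Zs
  rw [Finset.mul_sum]
  refine Finset.sum_le_sum fun v _ => ?_
  rw [← mul_assoc]
  exact mul_le_mul_of_nonneg_right (h _ (fa_iot v)) (cf_nonneg_of_nn hH _)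

/-- comparison of two weights (termwise, `cf ≥ 0` by `hH`) -/
theorem zs_mono (n : ℕ) (φ ψ : Perm ℕ → ℚ) (c : ℚ) (H : Module.End ℚ (Perm ℕ → ℚ)) (hH : NN H)
    (h : ∀ w : Perm ℕ, FA n w → ψ w ≤ c * φ w) : Zs n ψ H ≤ c * Zs n φ H := by
  unfold Zs
  rw [Finset.mul_sum]
  refine Finset.sum_le_sum fun v _ => ?_
  rw [← mul_assoc]
  exact mul_le_mul_of_nonneg_right (h _ (fa_iot v)) (cf_nonneg_of_nn hH _)

/-- a single coefficient is at most the weighted sum, if the weight is at least one -/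
theorem cf_le_zs (n : ℕ) (φ : Perm ℕ → ℚ) (H : Module.End ℚ (Perm ℕ → ℚ)) (hH : NN H)
    (h : ∀ w : Perm ℕ, FA n w → 1 ≤ φ w) (w : Perm ℕ) (hw : FA n w) : cf w H ≤ Zs n φ H := by
  have h1 : cf w H ≤ φ (iot (rst w hw)) * cf (iot (rst w hw)) H := by
    rw [iot_rst]
    exact le_mul_of_one_le_left (cf_nonneg_of_nn hH _) (h w hw)
  refine h1.trans ?_
  unfold Zs
  exact Finset.single_le_sum (f := fun v : Perm (Fin n) => φ (iot v) * cf (iot v) H)
    (fun v _ => mul_nonneg (zero_le_one.trans (h _ (fa_iot v))) (cf_nonneg_of_nn hH _))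
    (Finset.mem_univ (rst w hw))

theorem iot_one_eq (n : ℕ) : iot (1 : Perm (Fin n)) = 1 :=
  iot_ext (fun _ _ => rfl) (fun _ => rfl)

/-- the weighted sum of the identity operator: only the identity permutation contributes
(`cf w 1 = del ℚ w`; `iot 1 = 1`, and `iot` is injective by `iot_apply`) -/
theorem zs_one (n : ℕ) (φ : Perm ℕ → ℚ) : Zs n φ 1 = φ 1 := by
  unfold Zs
  rw [Finset.sum_eq_single (1 : Perm (Fin n))]
  · rw [iot_one_eq]
    have : cf (1 : Perm ℕ) (1 : Module.End ℚ (Perm ℕ → ℚ)) = 1 := by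
      unfold cf del
      rw [Module.End.one_apply, if_pos rfl]
    rw [this, mul_one]
  · intro v _ hv
    have hne : iot v ≠ 1 := by
      intro h
      apply hv
      ext i
      have := iot_apply v i
      rw [h] at this
      rw [Perm.one_apply]
      exact this.symm
    have : cf (iot v) (1 : Module.End ℚ (Perm ℕ → ℚ)) = 0 := by
      unfold cf del
      rw [Module.End.one_apply, if_neg hne]
    rw [this, mul_zero]
  · intro h
    exact absurd (Finset.mem_univ _) h

end Pool.Agent.helper54.Upb
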